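import Pool.Agent.Lib.MP_035963_ag.HN.Git

/-! Determinant tensors and contractions along dual pairs. -/

open Matrix Pool.Agent.Lib.MP_0d42ed_ag

namespace Pool.Agent.Lib.MP_035963_ag.HN

set_option linter.unusedSectionVars false

noncomputable section

variable {Λ : Type} [Field Λ] [CharZero Λ] {S : Type} [Fintype S] [DecidableEq S]
  {C : Type} [Fintype C] [DecidableEq C] {ι : C → Type} [∀ i, Fintype (ι i)]
  [∀ i, DecidableEq (ι i)] {γ : S → C} {R : Type} [Fintype R] [DecidableEq R] {ρ : R → C}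

theorem sw2 {T P Q V : (S → Σ i, ι i) → Λ} (hT : ∀ J, T J ≠ 0 → ∀ s, (J s).1 = γ s)
    (hP : ∀ g : Blk ι Λ, (∀ i, (g i).det ≠ 0) →
      ∃ ε : Λ, tb S g *ᵥ P = ε • P ∧ Q ᵥ* tb S g = ε • Q) (h : T ⬝ᵥ P ≠ 0) (h' : Q ⬝ᵥ V ≠ 0) :
    ∃ σ : Equiv.Perm S, ∑ J, T J * V (J ∘ σ) ≠ 0 := by
  have k := TP.schur_weyl (Sigma.fst : (Σ i, ι i) → C) (vecMulVec P Q) fun g k1 k2 => by
    obtain ⟨b, rfl, hb⟩ := git_blk k1 k2
    obtain ⟨ε, a1, a2⟩ := hP b hb
    change vecMulVec P Q * tb S b = tb S b * vecMulVec P Q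
    rw [vecMulVec_mul, mul_vecMulVec, a1, a2, vecMulVec_smul, smul_vecMulVec]
  by_contra n
  simp only [not_exists, not_not] at n
  have k2 : ∀ Y ∈ Submodule.span Λ {Y : Matrix (S → Σ i, ι i) (S → Σ i, ι i) Λ |
      ∃ σ φ, Y = TP.mon (Sigma.fst : (Σ i, ι i) → C) σ φ}, T ⬝ᵥ (Y *ᵥ V) = 0 := fun Y hY => by
    induction hY using Submodule.span_induction with
    | mem Y hY =>
      obtain ⟨σ, φ, rfl⟩ := hY
      rw [← mul_zero (∏ s, φ s (γ (σ s))), ← n σ, Finset.mul_sum]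
      refine Finset.sum_congr rfl fun I _ => ?_
      by_cases z : T I = 0
      · rw [z, zero_mul, zero_mul, mul_zero]
      simp only [mulVec, dotProduct, TP.p2_apply, ite_mul, zero_mul, Finset.sum_ite_eq,
        Finset.mem_univ, if_true, Function.comp_apply, hT I z]
      ring
    | zero => simp
    | add X Y _ _ a b => rw [add_mulVec, dotProduct_add, a, b, add_zero]
    | smul a X _ b => rw [smul_mulVec, dotProduct_smul, b, smul_zero]
  have k3 := k2 _ k
  rw [vecMulVec_mulVec] at k3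
  simp [dotProduct_smul, h, h'] at k3

/-- The basis tensor of a family of permutations. -/
def jp (E : (Σ r, ι (ρ r)) ≃ S) (π : ∀ r, Equiv.Perm (ι (ρ r))) (x : S) : Σ i, ι i :=
  ⟨ρ (E.symm x).1, π _ (E.symm x).2⟩

theorem jp_apply (E : (Σ r, ι (ρ r)) ≃ S) (π : ∀ r, Equiv.Perm (ι (ρ r))) (p) :
    jp E π (E p) = ⟨ρ p.1, π _ p.2⟩ :=
  congrArg (fun q : Σ r, ι (ρ r) => (⟨ρ q.1, π _ q.2⟩ : Σ i, ι i)) (E.symm_apply_apply p)

variable (Λ) in
/-- The product of determinants. -/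
def dl (E : (Σ r, ι (ρ r)) ≃ S) : (S → Σ i, ι i) → Λ :=
  ∑ π : ∀ r, Equiv.Perm (ι (ρ r)),
    (∏ r, ((Equiv.Perm.sign (π r) : ℤ) : Λ)) • Pi.single (jp E π) 1

variable (E : (Σ r, ι (ρ r)) ≃ S)

theorem dl_dot (F : (S → Σ i, ι i) → Λ) : F ⬝ᵥ dl Λ E = ∑ π : ∀ r, Equiv.Perm (ι (ρ r)),
    (∏ r, ((Equiv.Perm.sign (π r) : ℤ) : Λ)) * F (jp E π) := by
  simp only [dl, dotProduct_sum, dotProduct_smul, dotProduct_single, mul_one, smul_eq_mul]

theorem dl_ev (u : S → (Σ i, ι i) → Λ) : (fun J => ∏ s, u s (J s)) ⬝ᵥ dl Λ E =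
    ∏ r, (Matrix.of fun y x : ι (ρ r) => u (E ⟨r, x⟩) ⟨ρ r, y⟩).det := by
  simp only [dl_dot, det_apply', of_apply]
  rw [Fintype.prod_sum]
  refine Finset.sum_congr rfl fun π _ => ?_
  rw [Finset.prod_mul_distrib, ← E.prod_comp, Fintype.prod_sigma]
  simp only [jp_apply]

theorem dl_apply (J : S → Σ i, ι i) : dl Λ E J = ∏ r, (Matrix.of fun y x : ι (ρ r) =>
    (1 : Matrix (Σ i, ι i) (Σ i, ι i) Λ) ⟨ρ r, y⟩ (J (E ⟨r, x⟩))).det := by
  rw [← dl_ev E fun s a => (1 : Matrix (Σ i, ι i) (Σ i, ι i) Λ) a (J s), dotProduct_comm]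
  change _ = (dl Λ E ᵥ* tq S 1) J
  rw [tq_one, vecMul_one]

theorem dl_tb (g : Blk ι Λ) : dl Λ E ᵥ* tb S g = (∏ r, (g (ρ r)).det) • dl Λ E := by
  funext J
  rw [Pi.smul_apply, dl_apply, smul_eq_mul, ← Finset.prod_mul_distrib]
  refine ((dotProduct_comm _ _).trans
    (dl_ev E fun s a => blockDiagonal' g a (J s))).trans (Finset.prod_congr rfl fun r _ => ?_)
  rw [← det_mul]
  refine congrArg det (Matrix.ext fun y x => ?_)
  simp only [mul_apply, of_apply]
  rcases J (E ⟨r, x⟩) with ⟨j, z⟩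
  by_cases h : ρ r = j
  · subst h
    simp [one_apply]
  · simp [blockDiagonal'_apply_ne _ _ _ h, one_apply, h]

theorem dl_sq : dl Λ E ⬝ᵥ dl Λ E ≠ 0 := by
  have k : ∀ π, dl Λ E (jp E π) = ∏ r, ((Equiv.Perm.sign (π r) : ℤ) : Λ) := fun π => by
    rw [dl, Finset.sum_apply, Fintype.sum_eq_single π fun π' h => ?_]
    · simp
    have e : jp E π ≠ jp E π' := fun e => h (funext fun r => Equiv.ext fun x => by
      have := congrFun e (E ⟨r, x⟩)
      rw [jp_apply, jp_apply] at this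
      exact (sigma_mk_injective this).symm)
    rw [Pi.smul_apply, Pi.single_eq_of_ne e, smul_zero]
  simp only [dl_dot, k, ← Finset.prod_mul_distrib, ← Int.cast_mul, ← Units.val_mul,
    Int.units_mul_self]
  simp [Finset.prod_eq_zero_iff]

variable {P : (S → Σ i, ι i) → Λ}

variable (ρ) in
/-- The tensor is an eigenvector for a product of determinants. -/
def Se (P : (S → Σ i, ι i) → Λ) (g : Blk ι Λ) : Prop :=
  tb S g *ᵥ P = (∏ r, (g (ρ r)).det) • P

theorem Se.mul {g h : Blk ι Λ} (a : Se ρ P g) (b : Se ρ P h) : Se ρ P (g * h) := by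
  rw [Se, tb_mul, ← mulVec_mulVec, b, mulVec_smul, a, smul_smul, mul_comm,
    ← Finset.prod_mul_distrib]
  simp only [Pi.mul_apply, det_mul]

theorem se_one : Se ρ P 1 := by simp [Se, tb_one]

variable (hγ : ∀ J, P J ≠ 0 → ∀ s, (J s).1 = γ s) (hP : ∀ i x y b, tb S (gen Λ i x y b) *ᵥ P = P)
include hP

theorem se_count {J : S → Σ i, ι i} (h : P J ≠ 0) (i) (x y : ι i) :
    (Finset.univ.filter fun s => J s = ⟨i, x⟩).card =
      (Finset.univ.filter fun s => J s = ⟨i, y⟩).card := by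
  by_cases q : x = y
  · rw [q]
  have e := congrFun (hP i x y false) J
  rw [gen, if_neg q, if_neg Bool.false_ne_true, rey_single, rey_diag, mulVec_diagonal,
    mul_eq_right₀ h] at e
  have k : ∀ a : Σ i, ι i, (Pi.mulSingle i (Function.update (Function.update 1 x 2) y 2⁻¹) :
      ∀ j, ι j → Λ) a.1 a.2 = (if a = ⟨i, x⟩ then 2 else 1) * if a = ⟨i, y⟩ then 2⁻¹ else 1 := by
    rintro ⟨j, z⟩
    by_cases hj : j = i
    · subst hj
      by_cases h1 : z = y
      · subst h1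
        simp [Ne.symm q]
      · by_cases h2 : z = x
        · subst h2
          simp [q]
        · simp [h1, h2]
    · simp [hj]
  simp only [k] at e
  rw [Finset.prod_mul_distrib, Finset.prod_ite, Finset.prod_ite, Finset.prod_const_one,
    Finset.prod_const_one, Finset.prod_const, Finset.prod_const, mul_one, mul_one, inv_pow,
    mul_inv_eq_one₀ (by simp)] at e
  exact Nat.pow_right_injective le_rfl (show 2 ^ _ = 2 ^ _ by exact_mod_cast e)

theorem se_equiv {J : S → Σ i, ι i} (h : P J ≠ 0) : ∃ (r : ℕ) (κ : Fin r → C)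
    (E : (Σ k, ι (κ k)) ≃ S), jp E 1 = J := by
  have k : ∀ i, ∃ a, ∀ x : ι i, (Finset.univ.filter fun s => J s = ⟨i, x⟩).card = a := fun i =>
    (isEmpty_or_nonempty (ι i)).elim (fun _ => ⟨0, isEmptyElim⟩) fun ⟨y⟩ =>
      ⟨_, fun x => se_count hP h i x y⟩
  choose a ha using k
  let e := (Fintype.equivFin (Σ i, Fin (a i))).symm
  have c : ∀ b : Σ i, ι i, Fintype.card {p : Σ k, ι (e k).1 // ⟨(e p.1).1, p.2⟩ = b} =
      Fintype.card {s // J s = b} := fun ⟨i, x⟩ => by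
    rw [Fintype.card_subtype, Fintype.card_subtype, ha, Finset.card_filter, Fintype.sum_sigma,
      e.sum_comp fun z => ∑ y : ι z.1, if (⟨z.1, y⟩ : Σ i, ι i) = ⟨i, x⟩ then 1 else 0,
      Fintype.sum_sigma, Fintype.sum_eq_single i fun j hj => by simp [hj]]
    simp
  refine ⟨_, fun k => (e k).1, Equiv.ofFiberEquiv fun b => Fintype.equivOfCardEq (c b), ?_⟩
  funext s
  exact (Equiv.ofFiberEquiv_map (fun b => Fintype.equivOfCardEq (c b)) _).symm.trans
    (congrArg J (Equiv.apply_symm_apply _ s))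

include hγ
variable {E} (hE : P (jp E 1) ≠ 0)
include hE

theorem se_diag (D : ∀ i, ι i → Λ) : Se ρ P fun i => diagonal (D i) := by
  funext J
  rw [rey_diag, mulVec_diagonal, Pi.smul_apply, smul_eq_mul]
  by_cases h : P J = 0
  · rw [h, mul_zero, mul_zero]
  have k : ∏ r, (diagonal (D (ρ r))).det = ∏ s, D (jp E 1 s).1 (jp E 1 s).2 := by
    rw [← E.prod_comp fun s => D (jp E 1 s).1 (jp E 1 s).2, Fintype.prod_sigma]
    refine Finset.prod_congr rfl fun r _ => det_diagonal.trans (Finset.prod_congr rfl fun x _ => ?_)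
    rw [jp_apply]
    rfl
  rw [k, ← Fintype.prod_fiberwise' J fun a => D a.1 a.2,
    ← Fintype.prod_fiberwise' (jp E 1) fun a => D a.1 a.2]
  simp only [Finset.prod_const, Finset.card_univ, Fintype.card_subtype, semi_count hγ hP h hE]

theorem se_trans (i : C) {x y : ι i} (h : x ≠ y) (a : Λ) :
    Se ρ P (Pi.mulSingle i (transvection x y a)) := by
  by_cases z : a = 0
  · rw [z, transvection_zero, Pi.mulSingle_one]
    exact se_one
  have k0 : ∀ d : ι i → Λ, Se ρ P (Pi.mulSingle i (diagonal d)) := fun d => by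
    rw [rey_single]
    exact se_diag hγ hP hE _
  have k1 : Se ρ P (gen Λ i x y true) := by simp [Se, hP, gen_det]
  have k2 : transvection x y a = diagonal (Function.update 1 x a) * transvection x y 1 *
      diagonal (Function.update 1 x a⁻¹) := by
    ext u v
    rw [mul_diagonal, diagonal_mul]
    by_cases hu : u = x <;> by_cases hv : v = x
    · simp [transvection, hu, hv, z, h.symm]
    · simp [transvection, single_apply, hu, hv, Ne.symm hv]
    · simp [transvection, hu, hv, h.symm]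
    · simp [transvection, hu, hv, Ne.symm hu]
  rw [gen, if_neg h, if_pos rfl] at k1
  rw [k2, Pi.mulSingle_mul, Pi.mulSingle_mul]
  exact ((k0 _).mul k1).mul (k0 _)

theorem se_all {g : Blk ι Λ} (hg : ∀ i, (g i).det ≠ 0) : Se ρ P g := by
  have k : ∀ i, Se ρ P (Pi.mulSingle i (g i)) := fun i =>
    diagonal_transvection_induction_of_det_ne_zero (fun M => Se ρ P (Pi.mulSingle i M)) _ (hg i)
      (fun D _ => by rw [rey_single]; exact se_diag hγ hP hE _)
      (fun t => se_trans hγ hP hE i t.hij t.c)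
      fun A B _ _ a b => by rw [Pi.mulSingle_mul]; exact a.mul b
  have k2 : ∀ F : Finset C, Se ρ P fun i => if i ∈ F then g i else 1 := fun F => by
    induction F using Finset.induction_on with
    | empty => exact (funext fun i => by simp :
        (1 : Blk ι Λ) = fun i => if i ∈ (∅ : Finset C) then g i else 1) ▸ se_one
    | insert j F hj ih =>
      have : (fun i => if i ∈ insert j F then g i else 1) =
          Pi.mulSingle j (g j) * fun i => if i ∈ F then g i else 1 := by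
        funext i
        by_cases hi : i = j
        · subst hi
          simp [hj]
        · simp [hi]
      rw [this]
      exact (k j).mul ih
  simpa using k2 Finset.univ

omit hγ hP hE

theorem git2 {t : (S → Σ i, ι i) → Λ} (ht : t ≠ 0) (hγ : ∀ J, t J ≠ 0 → ∀ s, (J s).1 = γ s)
    {G : Set (Blk ι Λ)} (hd : ∀ g ∈ G, ∀ i, (g i).det ≠ 0)
    (hi : ∀ g ∈ G, ∃ s : Λ, t ᵥ* tb S g = s • t)
    (hG : ∀ i (U : Submodule Λ (ι i → Λ)), (∀ g ∈ G, ∀ u ∈ U, g i *ᵥ u ∈ U) → U = ⊥ ∨ U = ⊤) :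
    ∃ (d r : ℕ) (κ : Fin r → C) (E : (Σ k : Fin r, ι (κ k)) ≃ Fin (d + 1) × S),
      (∀ p, γ (E p).2 = κ p.1) ∧
      (∀ g ∈ G, ∀ s : Λ, t ᵥ* tb S g = s • t → ∏ k, (g (κ k)).det = s ^ (d + 1)) ∧
      ∑ π : ∀ k, Equiv.Perm (ι (κ k)), (∏ k, ((Equiv.Perm.sign (π k) : ℤ) : Λ)) *
        pw t (d + 1) (fun x => ⟨κ (E.symm x).1, π _ (E.symm x).2⟩) ≠ 0 := by
  obtain ⟨d, P, h1, h2⟩ := Sep.inv (hm t (kempf ht hd hi hG))
  have hT : ∀ J, pw t (d + 1) J ≠ 0 → ∀ p : Fin (d + 1) × S, (J p).1 = γ p.2 := fun J h p =>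
    hγ _ (Finset.prod_ne_zero_iff.1 h p.1 (Finset.mem_univ _)) p.2
  obtain ⟨Q, q0, q1, q2⟩ : ∃ Q : (Fin (d + 1) × S → Σ i, ι i) → Λ, pw t (d + 1) ⬝ᵥ Q ≠ 0 ∧
      (∀ J, Q J ≠ 0 → ∀ p, (J p).1 = γ p.2) ∧ ∀ i x y b, tb _ (gen Λ i x y b) *ᵥ Q = Q := by
    refine ⟨fun J => if ∀ p, (J p).1 = γ p.2 then P J else 0,
      fun e => h1 (Eq.trans (Finset.sum_congr rfl fun J _ => ?_) e),
      fun J h => by_contra fun q => h (if_neg q), fun i x y b => cut_inv _ (h2 i x y b)⟩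
    by_cases z : pw t (d + 1) J = 0
    · rw [z, zero_mul, zero_mul]
    · exact congrArg _ (if_pos (hT J z)).symm
  obtain ⟨J, -, hJ⟩ := Finset.exists_ne_zero_of_sum_ne_zero q0
  obtain ⟨r, κ, E, rfl⟩ := se_equiv q2 (right_ne_zero_of_mul hJ)
  have k : ∀ g : Blk ι Λ, (∀ i, (g i).det ≠ 0) → Se κ Q g := fun g hg =>
    se_all q1 q2 (right_ne_zero_of_mul hJ) hg
  obtain ⟨σ, hσ⟩ := sw2 hT (fun g hg => ⟨_, k g hg, dl_tb E g⟩) q0 (dl_sq E)
  have k2 : ∑ π : ∀ k, Equiv.Perm (ι (κ k)), (∏ k, ((Equiv.Perm.sign (π k) : ℤ) : Λ)) *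
      pw t (d + 1) (jp (E.trans σ) π) ≠ 0 := fun e => hσ (by
    rw [← e, ← (σ.arrowCongr (.refl _)).sum_comp]
    refine .trans (Finset.sum_congr rfl fun J _ => ?_) (dl_dot E fun J => pw t (d + 1) (J ∘ σ.symm))
    exact congrArg (_ * dl Λ E ·) (funext fun x => congrArg J (σ.symm_apply_apply x)))
  refine ⟨d, r, κ, E.trans σ, fun p => ?_, fun g hg s hs => ?_, k2⟩
  · obtain ⟨π, -, h⟩ := Finset.exists_ne_zero_of_sum_ne_zero k2
    rw [← hT _ (right_ne_zero_of_mul h), jp_apply]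
  · have a := dotProduct_mulVec (pw t (d + 1)) (tb _ g) Q
    have b : pw t (d + 1) ᵥ* tb _ g = s ^ (d + 1) • pw t (d + 1) := by
      refine (pw_vecMul _ _ _).trans ((congrArg (pw · (d + 1)) hs).trans (funext fun J => ?_))
      simp [pw, Finset.prod_mul_distrib]
    rw [k g (hd g hg), b, dotProduct_smul, smul_dotProduct] at a
    exact mul_right_cancel₀ q0 a

end

end Pool.Agent.Lib.MP_035963_ag.HN
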