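import Pool.Agent.Lib.MP_035963_ag.HN.Det
import Pool.Agent.Lib.MP_035963_ag.HN.Git2

/-! Numerically trivial classes vanish when the monodromy is irreducible. -/

open CategoryTheory MonoidalCategory CartesianMonoidalCategory Opposite Module Matrix

namespace Pool.Agent.Lib.MP_035963_ag.HN

set_option linter.unusedSectionVars false

noncomputable section

variable {S : AlgebraicGeometry.Scheme.{0}} {Λ : Type} [Field Λ] [CharZero Λ] {H : Over S → Type}
  [∀ X, Ring (H X)] [∀ X, Algebra Λ (H X)] [∀ X, Module ℚ (H X)] {W : Coh Λ H} {X : Over S}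
  (hW : W.Weil) (hX : W.V X)
include hW hX

theorem tr_sym {T g} (hg : g ∈ W.Sym X T) {t} (ht : t ∈ Submodule.span Λ (W.cl X '' T)) {D v}
    (hv : v ∈ W.gr X D) : W.tr X (t * g.1 v) = ↑(g.2 ^ (D / 2)) * W.tr X (t * v) := by
  refine sub_eq_zero.1 ((Submodule.span_le (p := LinearMap.ker
    (W.tr X ∘ₗ LinearMap.mulRight Λ (g.1 v) - g.2 ^ (D / 2) • W.tr X ∘ₗ LinearMap.mulRight Λ v))).2
    ?_ ht)
  rintro _ ⟨x, hx, rfl⟩
  obtain ⟨i, hi⟩ := hW.cl_gr X hX x
  have := hg.1 _ _ (hW.mul X hX _ _ _ hi _ hv).1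
  rw [map_mul, hg.2 x hx i hi, smul_mul_assoc, LinearMap.map_smul_of_tower,
    Nat.mul_add_div two_pos, pow_add, mul_smul] at this
  exact sub_eq_zero.2 (smul_left_cancel _ this)

theorem exists_mono {κ : Type} {e : κ → H X} (he : Algebra.adjoin Λ (Set.range e) = ⊤) {t}
    (ht : t ≠ 0) : ∃ (M : ℕ) (I : Fin M → κ), W.tr X (t * (List.ofFn fun s => e (I s)).prod) ≠ 0 :=
  by_contra fun h => ht (hW.dual X hX t fun v => by
    have a : v ∈ Subalgebra.toSubmodule (Algebra.adjoin Λ (Set.range e)) := he ▸ trivial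
    rw [Algebra.adjoin_eq_span] at a
    refine (Submodule.span_le (p := LinearMap.ker (W.tr X ∘ₗ LinearMap.mulLeft Λ t))).2
      (fun w hw => ?_) a
    obtain ⟨l, hl, rfl⟩ := Submonoid.exists_list_of_mem_closure hw
    choose I hI using fun s => hl _ (List.get_mem l s)
    refine by_contra fun z => h ⟨_, I, ?_⟩
    simp only [hI, List.ofFn_get]
    exact z)

theorem nondeg (h : W.Mono X) {t} (ht : t ∈ W.B X) (hn : ∀ x, W.tr X (t * W.cl X x) = 0) :
    t = 0 := by
  classical
  by_contra h0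
  obtain ⟨T, hT⟩ : ∃ T : Finset X.left, t ∈ Submodule.span Λ (W.cl X '' T) := by
    obtain ⟨a, rfl⟩ := Finsupp.mem_span_range_iff_exists_finsupp.1 ht
    exact ⟨a.support, sum_mem fun x hx =>
      Submodule.smul_mem _ _ (Submodule.subset_span ⟨x, hx, rfl⟩)⟩
  obtain ⟨G, hG, P, hP, hgen, hA⟩ := h T
  obtain ⟨M, I, hI⟩ := exists_mono hW hX (e := Subtype.val)
    ((congrArg _ Subtype.range_coe).trans hgen) h0
  choose U hU hu using fun s => Set.mem_iUnion₂.1 (I s).2
  choose d hd using fun i => (hP (hU i)).1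
  have := hW.fin X hX
  let b := fun i => Module.finBasis Λ (U i)
  let e : (Σ i, Fin (finrank Λ (U i))) → H X := fun p => b p.1 p.2
  have he : ∀ p, e p ∈ W.gr X (d p.1) := fun p => hd _ (b _ _).2
  have hs : ∀ i (u : U i), ∑ x, (b i).repr u x • e ⟨i, x⟩ = u := fun i u =>
    .trans (by rw [map_sum]; rfl) (congrArg (U i).subtype ((b i).sum_repr u))
  let f := fun (g : G) i => g.1.1.toLinearMap.restrict ((hP (hU i)).2.1 g g.2)
  let ρ : G → Blk (fun i => Fin (finrank Λ (U i))) Λ := fun g i =>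
    LinearMap.toMatrix (b i) (b i) (f g i)
  have q : ∀ g : G, frm W t e id ᵥ* tb _ (ρ g) = (↑(g.1.2 ^ ((∑ s, d s) / 2)) : Λ) • frm W t e id := by
    refine fun g => funext fun J => ?_
    have c : ∀ J', tb _ (ρ g) J' J ≠ 0 → ∀ x, (J' x).1 = (J x).1 :=
      fun J' h x => of_blockDiagonal' (P := fun a b => a.1 = b.1) (fun _ _ _ _ => rfl)
        fun z => h (Finset.prod_eq_zero (Finset.mem_univ x) z)
    by_cases hJ : ∀ x, (J x).1 = id x
    · have r : ∀ p, g.1.1 (e p) = ∑ p', blockDiagonal' (ρ g) p' p • e p' := fun ⟨j, y⟩ => by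
        rw [Fintype.sum_sigma, Fintype.sum_eq_single j fun i z => by
          simp [blockDiagonal'_apply_ne _ _ _ z]]
        simp only [blockDiagonal'_apply_eq, ρ, LinearMap.toMatrix_apply]
        exact (hs _ (f g j (b _ y))).symm
      rw [Pi.smul_apply, frm, if_pos hJ, smul_eq_mul, ← tr_sym hW hX (hG g.2) hT
        (gr_ofFn hW hX _ _ fun x => by simpa only [hJ, id] using he (J x)), map_list_prod, List.map_ofFn]
      simp only [Function.comp_def, r]
      rw [lp_dsum (fun x p => blockDiagonal' (ρ g) p (J x)) fun _ => e, Finset.mul_sum, map_sum]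
      refine Finset.sum_congr rfl fun J' _ => ?_
      rw [mul_smul_comm, _root_.map_smul, smul_eq_mul, mul_comm]
      refine (em' _).elim (fun z => congrArg _ (if_pos fun x => (c J' z x).trans (hJ x))) fun z => ?_
      exact (mul_eq_zero_of_left z _).trans (mul_eq_zero_of_left z _).symm
    · rw [Pi.smul_apply, frm, if_neg hJ, smul_zero]
      exact Finset.sum_eq_zero fun J' _ => by_contra fun z => hJ fun x =>
        (c J' (right_ne_zero_of_mul z) x).symm.trans
          ((ite_ne_right_iff.1 (left_ne_zero_of_mul z)).1 x)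
  refine (git2 (t := frm W t e id) (γ := id) (G := Set.range ρ) (fun z => hI ?_)
    (fun J z => (ite_ne_right_iff.1 z).1) ?_ (Set.forall_mem_range.2 fun g => ⟨_, q g⟩) ?_).elim
      fun N ⟨r, κ, E, h1, h2, h3⟩ => h3 (det_zero hW hX ht hn b hd E h1
        (hA _ _ _ _ (fun i => hU _) ⟨(∑ s, d s) / 2 * (N + 1), fun g hg φ hφ => ?_⟩))
  · have a := lp_dsum (fun s => (b s).repr ⟨_, hu s⟩) fun s x => e ⟨s, x⟩
    simp only [hs] at a
    rw [a, Finset.mul_sum, map_sum]
    refine Finset.sum_eq_zero fun x _ => ?_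
    rw [mul_smul_comm, _root_.map_smul]
    exact smul_eq_zero_of_right _ ((if_pos fun _ => rfl).symm.trans (congrFun z fun s => ⟨s, x s⟩))
  · rintro _ ⟨g, rfl⟩ i
    rw [LinearMap.det_toMatrix, Ne, LinearMap.det_eq_zero_iff_ker_ne_bot, not_not,
      LinearMap.ker_eq_bot]
    exact fun u v z => Subtype.ext (g.1.1.injective (congrArg Subtype.val z))
  · intro i V hV
    refine ((hP (hU i)).2.2 ((V.comap (b i).equivFun.toLinearMap).map (U i).subtype)
      (Submodule.map_subtype_le _ _) ?_).imp (fun z => ?_) fun z => ?_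
    · rintro g hg _ ⟨w, hw, rfl⟩
      exact ⟨f ⟨g, hg⟩ i w, Submodule.mem_comap.2 (Set.mem_of_eq_of_mem
        (LinearMap.toMatrix_mulVec_repr (b i) (b i) _ w).symm (hV _ ⟨⟨g, hg⟩, rfl⟩ _ hw)), rfl⟩
    · refine (Submodule.eq_bot_iff _).2 fun v hv => (b i).equivFun.symm.map_eq_zero_iff.1
        (Subtype.ext ((Submodule.eq_bot_iff _).1 z _ ⟨_, ?_, rfl⟩))
      exact Submodule.mem_comap.2 (Set.mem_of_eq_of_mem ((b i).equivFun.apply_symm_apply v) hv)
    · refine top_le_iff.1 fun v _ => ?_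
      obtain ⟨w, h1, h2⟩ := z.ge ((b i).equivFun.symm v).2
      rw [Subtype.ext h2] at h1
      exact Set.mem_of_eq_of_mem ((b i).equivFun.apply_symm_apply v).symm h1
  · rw [pow_mul, Units.val_pow_eq_pow_val, ← h2 _ ⟨⟨g, hg⟩, rfl⟩ _ (q _)]
    refine Finset.prod_congr rfl fun i _ => ?_
    rw [LinearMap.det_toMatrix]
    exact congrArg _ (LinearMap.ext fun u => Subtype.ext (hφ i u))

theorem inj (h : W.Mono X) : Function.Injective ((W.A X).subtype.liftBaseChange Λ) := by
  let b := Basis.ofVectorSpace ℚ (W.A X)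
  refine LinearMap.injective_of_linearIndependent (b.baseChange Λ).span_eq ?_
  rw [show (W.A X).subtype.liftBaseChange Λ ∘ b.baseChange Λ = fun i => (b i : H X) from
    funext fun i => by simp]
  refine linearIndependent_iff'.2 fun s c hc i hi =>
    (Module.forall_dual_apply_eq_zero_iff ℚ (c i)).1 fun l => ?_
  refine linearIndependent_iff'.1 b.linearIndependent s (fun j => l (c j)) (Subtype.ext
    (nondeg hW hX h (A_le (Subtype.prop _)) fun x => ?_)) i hi
  choose q hq using fun j => hW.alg_tr X hX _ (hW.alg_mul X hX _ (b j).2 _ (cl_mem x))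
  have a := congrArg (fun v => l (W.tr X (v * W.cl X x))) hc
  simp only [Finset.sum_mul, smul_mul_assoc, map_sum, _root_.map_smul, hq, zero_mul, map_zero,
    smul_eq_mul, mul_comm (c _), ← Rat.smul_def] at a
  have z : ∀ (r : ℚ) (v : H X), r • v = (r : Λ) • v := fun r v =>
    (Rat.cast_smul_eq_qsmul Λ r v).symm
  simp only [Submodule.coe_sum, Submodule.coe_smul, z, Finset.sum_mul, smul_mul_assoc, map_sum,
    _root_.map_smul, hq, smul_eq_mul, mul_comm _ (q _ : Λ)]
  exact_mod_cast a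

end

end Pool.Agent.Lib.MP_035963_ag.HN
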