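import Pool.Agent.Lib.MP_0d42ed_ag.TP.P4

/-! Tensor powers of block matrices. -/

open Matrix

namespace Pool.Agent.Lib.MP_035963_ag.HN

set_option linter.unusedSectionVars false

noncomputable section

variable {R R' : Type} [CommRing R] [CommRing R'] {S κ : Type} [Fintype S] [DecidableEq S]
  [Fintype κ] [DecidableEq κ]

/-- The tensor power of a matrix. -/
def tq (S : Type) [Fintype S] (g : Matrix κ κ R) : Matrix (S → κ) (S → κ) R :=
  Matrix.of fun I J => ∏ s, g (I s) (J s)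

theorem tq_apply (g : Matrix κ κ R) (I J : S → κ) : tq S g I J = ∏ s, g (I s) (J s) := rfl

theorem tq_mul (g h : Matrix κ κ R) : tq S (g * h) = tq S g * tq S h := by
  ext I J
  simp only [tq_apply, Matrix.mul_apply]
  rw [Fintype.prod_sum fun s k => g (I s) k * h k (J s)]
  exact Finset.sum_congr rfl fun K _ => Finset.prod_mul_distrib

theorem tq_one : tq S (1 : Matrix κ κ R) = 1 := by
  ext I J
  rw [tq_apply]
  by_cases h : I = J
  · subst h
    simp
  · obtain ⟨s, hs⟩ := Function.ne_iff.1 h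
    rw [Matrix.one_apply_ne h]
    exact Finset.prod_eq_zero (Finset.mem_univ s) (Matrix.one_apply_ne hs)

theorem tq_transpose (g : Matrix κ κ R) : tq S gᵀ = (tq S g)ᵀ := rfl

theorem tq_map (φ : R →+* R') (g : Matrix κ κ R) : tq S (g.map φ) = (tq S g).map φ := by
  ext I J
  simp only [tq_apply, Matrix.map_apply, map_prod]

/-- The tensor power of a tensor. -/
def pw (t : (S → κ) → R) (d : ℕ) : (Fin d × S → κ) → R := fun J => ∏ j, t fun s => J (j, s)

theorem pw_vecMul (t : (S → κ) → R) (d : ℕ) (g : Matrix κ κ R) :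
    pw t d ᵥ* tq _ g = pw (t ᵥ* tq S g) d := by
  funext J
  simp only [pw, vecMul, dotProduct, tq_apply]
  rw [Fintype.prod_sum fun (j : Fin d) (I : S → κ) => t I * ∏ s, g (I s) (J (j, s)),
    ← (Equiv.curry (Fin d) S κ).sum_comp]
  exact Finset.sum_congr rfl fun I _ => by
    rw [Finset.prod_mul_distrib, Fintype.prod_prod_type]
    rfl

variable {C : Type} [Fintype C] [DecidableEq C] {ι : C → Type} [∀ i, Fintype (ι i)]
  [∀ i, DecidableEq (ι i)]

/-- Families of square matrices. -/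
abbrev Blk (ι : C → Type) (R : Type) : Type := ∀ i, Matrix (ι i) (ι i) R

variable (S) in
/-- The tensor power of the block matrix. -/
def tb (g : Blk ι R) : Matrix (S → Σ i, ι i) (S → Σ i, ι i) R := tq S (blockDiagonal' g)

theorem tb_mul (g h : Blk ι R) : tb S (g * h) = tb S g * tb S h := by
  rw [tb, tb, tb, ← tq_mul, ← blockDiagonal'_mul]
  rfl

theorem tb_one : tb S (1 : Blk ι R) = 1 := by rw [tb, blockDiagonal'_one, tq_one]

theorem tb_transpose (g : Blk ι R) : tb S (fun i => (g i)ᵀ) = (tb S g)ᵀ := by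
  rw [tb, tb, ← tq_transpose, blockDiagonal'_transpose]

theorem tb_map (φ : R →+* R') (g : Blk ι R) :
    tb S (fun i => (g i).map φ) = (tb S g).map φ := by
  rw [tb, tb, ← tq_map, blockDiagonal'_map _ _ φ.map_zero]

theorem vecMul_map (φ : R →+* R') (t : (S → Σ i, ι i) → R) (g : Blk ι R) :
    (φ ∘ t) ᵥ* tb S (fun i => (g i).map φ) = φ ∘ (t ᵥ* tb S g) := by
  funext I
  simp [tb_map, vecMul, dotProduct]

theorem exists_of_vecMul {t : (S → Σ i, ι i) → R} {g : Blk ι R} {I} (h : (t ᵥ* tb S g) I ≠ 0) :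
    ∃ J, t J ≠ 0 ∧ ∀ s, blockDiagonal' g (J s) (I s) ≠ 0 := by
  obtain ⟨J, -, hJ⟩ := Finset.exists_ne_zero_of_sum_ne_zero h
  exact ⟨J, left_ne_zero_of_mul hJ, fun s e =>
    right_ne_zero_of_mul hJ (Finset.prod_eq_zero (Finset.mem_univ s) e)⟩

theorem of_blockDiagonal' {g : Blk ι R} {P : (Σ i, ι i) → (Σ i, ι i) → Prop}
    (h : ∀ i x y, g i x y ≠ 0 → P ⟨i, x⟩ ⟨i, y⟩) {a b} (e : blockDiagonal' g a b ≠ 0) : P a b := by
  obtain ⟨i, x⟩ := a
  obtain ⟨j, y⟩ := b
  by_cases q : i = j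
  · subst q
    exact h i x y (by rwa [blockDiagonal'_apply_eq] at e)
  · exact absurd (blockDiagonal'_apply_ne g x y q) e

theorem vecMul_monomial {m : Blk ι R} {σ : ∀ i, Equiv.Perm (ι i)}
    (h : ∀ i x y, m i x y ≠ 0 → x = σ i y) (u : (S → Σ i, ι i) → R) (I : S → Σ i, ι i) :
    (u ᵥ* tb S m) I = u (fun s => ⟨(I s).1, σ _ (I s).2⟩) * ∏ s, m _ (σ _ (I s).2) (I s).2 := by
  refine (Finset.sum_eq_single (fun s => (⟨(I s).1, σ _ (I s).2⟩ : Σ i, ι i)) (fun J _ e => ?_)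
    (by simp)).trans (by simp [tb, tq_apply, ← blockDiagonal'_apply_eq m])
  obtain ⟨s, hs⟩ := Function.ne_iff.1 e
  refine mul_eq_zero_of_right _ (Finset.prod_eq_zero (Finset.mem_univ s) (by_contra fun z => ?_))
  exact hs (of_blockDiagonal' (P := fun a b => a = ⟨b.1, σ _ b.2⟩)
    (fun i x y q => by rw [h i x y q]) z)

/-- A destabilizing weighted basis. -/
structure Des {F : Type} [Field F] (t : (S → Σ i, ι i) → F) (g : Blk ι F)
    (w : (Σ i, ι i) → ℝ) : Prop where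
  det : ∀ i, (g i).det ≠ 0
  sum : ∀ i, ∑ x, w ⟨i, x⟩ = 0
  pos : ∀ I, (t ᵥ* tb S g) I ≠ 0 → 1 ≤ ∑ s, w (I s)

end

end Pool.Agent.Lib.MP_035963_ag.HN
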