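import Pool.Agent.Lib.MP_035963_ag.HN.Defs
import Pool.Agent.Lib.MP_035963_ag.HN.Tq

/-! The contractions of a numerically trivial class vanish. -/

open CategoryTheory MonoidalCategory CartesianMonoidalCategory Opposite Module Matrix

namespace Pool.Agent.Lib.MP_035963_ag.HN

set_option linter.unusedSectionVars false

noncomputable section

variable {S : AlgebraicGeometry.Scheme.{0}} {Λ : Type} [Field Λ] [CharZero Λ] {H : Over S → Type}
  [∀ X, Ring (H X)] [∀ X, Algebra Λ (H X)] [∀ X, Module ℚ (H X)] {W : Coh Λ H} {X Y Z : Over S}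

theorem A_le {a : H X} (h : a ∈ W.A X) : a ∈ W.B X :=
  (Submodule.span_le_restrictScalars ℚ Λ _ : W.A X ≤ _) h

theorem cl_mem (x) : W.cl X x ∈ W.A X := Submodule.subset_span ⟨x, rfl⟩

theorem B_le {U : Submodule Λ (H X)} (h : ∀ x, W.cl X x ∈ U) {a} (ha : a ∈ W.B X) : a ∈ U :=
  Submodule.span_le.2 (Set.range_subset_iff.2 h) ha

theorem lp_mul {R : Type} [Monoid R] : ∀ {n : ℕ} (a b : Fin n → R), (∀ i j, Commute (a i) (b j)) →
    (List.ofFn a).prod * (List.ofFn b).prod = (List.ofFn fun j => a j * b j).prod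
  | 0, _, _, _ => by simp
  | n + 1, a, b, h => by
    simp only [List.ofFn_succ, List.prod_cons]
    rw [← lp_mul (fun j => a j.succ) (fun j => b j.succ) fun i j => h _ _, mul_assoc, mul_assoc,
      ← mul_assoc _ (b 0), ← (Commute.list_prod_left _ (b 0) fun x hx => by
        obtain ⟨i, rfl⟩ := List.mem_ofFn.1 hx
        exact h _ _).symm.eq, mul_assoc]

theorem lp_sum {R S π : Type} [Ring R] [Algebra Λ R] [Fintype S] [DecidableEq S] [Fintype π]
    {M : ℕ} (e : Fin M ≃ S) (c : S → π → Λ) (u : S → π → R) :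
    (List.ofFn fun a => ∑ p, c (e a) p • u (e a) p).prod =
      ∑ r : S → π, (∏ x, c x (r x)) • (List.ofFn fun a => u (e a) (r (e a))).prod := by
  refine ((MultilinearMap.mkPiAlgebraFin Λ M R).map_sum fun a p => c (e a) p • u (e a) p).trans ?_
  rw [← (e.arrowCongr (.refl π)).symm.sum_comp]
  refine Finset.sum_congr rfl fun r _ => ?_
  rw [MultilinearMap.map_smul_univ, ← e.prod_comp]
  rfl

variable (X) in
/-- The power with `n + 1` factors. -/
def pow : ℕ → Over S
  | 0 => X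
  | n + 1 => X ⊗ pow n

variable (X) in
/-- The projections. -/
def pr : ∀ n : ℕ, Fin (n + 1) → (pow X n ⟶ X)
  | 0 => fun _ => 𝟙 X
  | n + 1 => Fin.cases (fst X _) fun j => snd X _ ≫ pr n j

variable (hW : W.Weil) (hX : W.V X)
include hW hX

theorem B_mul {a b} (ha : a ∈ W.B X) (hb : b ∈ W.B X) : a * b ∈ W.B X :=
  B_le (U := (W.B X).comap (LinearMap.mulRight Λ b)) (fun x =>
    B_le (U := (W.B X).comap (LinearMap.mulLeft Λ _))
      (fun y => A_le (hW.alg_mul X hX _ (cl_mem x) _ (cl_mem y))) hb) ha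

theorem B_pull (hY : W.V Y) (f : X ⟶ Y) {a} (ha : a ∈ W.B Y) : W.pull f a ∈ W.B X :=
  B_le (U := (W.B X).comap (W.pull f).toLinearMap)
    (fun x => A_le (hW.alg_pull X Y hX hY f _ (cl_mem x))) ha

theorem B_push (hY : W.V Y) {w} (hw : w ∈ W.B (X ⊗ Y)) :
    ∃ u ∈ W.B X, ∀ a, W.tr _ (W.pull (fst X Y) a * w) = W.tr X (a * u) := by
  induction hw using Submodule.span_induction with
  | mem _ h =>
    obtain ⟨x, rfl⟩ := h
    exact (hW.alg_push X Y hX hY _ (cl_mem x)).imp fun u h => ⟨A_le h.1, h.2⟩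
  | zero => exact ⟨0, zero_mem _, by simp⟩
  | add _ _ _ _ h h' =>
    obtain ⟨u, a, b⟩ := h
    obtain ⟨u', a', b'⟩ := h'
    exact ⟨u + u', add_mem a a', by simp [mul_add, b, b']⟩
  | smul s _ _ h =>
    obtain ⟨u, a, b⟩ := h
    exact ⟨s • u, Submodule.smul_mem _ _ a, by simp [b]⟩

theorem B_list {l : List (H X)} (h : ∀ a ∈ l, a ∈ W.B X) : l.prod ∈ W.B X :=
  List.prod_induction _ (fun _ _ => B_mul hW hX) (A_le (hW.one X hX).2) h

theorem B_comm {t a i} (ht : t ∈ W.B X) (ha : a ∈ W.gr X i) : Commute t a :=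
  sub_eq_zero.1 (B_le (U := LinearMap.ker (LinearMap.mulRight Λ a - LinearMap.mulLeft Λ a))
    (fun x => by
      obtain ⟨j, hj⟩ := hW.cl_gr X hX x
      simp [(hW.mul X hX _ _ _ hj _ ha).2, pow_mul]) ht)

theorem gr_list {α : Type} (d : α → ℕ) (v : α → H X) (h : ∀ x, v x ∈ W.gr X (d x)) :
    ∀ l : List α, (l.map v).prod ∈ W.gr X (l.map d).sum
  | [] => (hW.one X hX).1
  | a :: l => (hW.mul X hX _ _ _ (h a) _ (gr_list d v h l)).1

theorem sgn_list {α : Type} (d : α → ℕ) {l l' : List α} (p : l.Perm l') : ∃ ε : Λ,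
    ∀ v : α → H X, (∀ x, v x ∈ W.gr X (d x)) → (l.map v).prod = ε • (l'.map v).prod := by
  induction p with
  | nil => exact ⟨1, by simp⟩
  | cons a _ h => exact h.imp fun ε e v hv => by simp [e v hv]
  | swap a b l => exact ⟨(-1) ^ (d b * d a), fun v hv => by
      simp only [List.map_cons, List.prod_cons, ← mul_assoc]
      rw [(hW.mul X hX _ _ _ (hv b) _ (hv a)).2, smul_mul_assoc]⟩
  | trans _ _ h h' =>
    obtain ⟨ε, e⟩ := h
    obtain ⟨ε', e'⟩ := h'
    exact ⟨ε * ε', fun v hv => by rw [e v hv, e' v hv, smul_smul]⟩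

theorem V_pow : ∀ n, W.V (pow X n)
  | 0 => hX
  | n + 1 => hW.prod _ _ hX (V_pow n)

theorem tr_pow : ∀ (n : ℕ) (a : Fin (n + 1) → H X),
    W.tr _ (List.ofFn fun j => W.pull (pr X n j) (a j)).prod = ∏ j, W.tr X (a j)
  | 0, a => by
    simp only [List.ofFn_succ, List.ofFn_zero, List.prod_cons, List.prod_nil, mul_one,
      Fin.prod_univ_succ, Fin.prod_univ_zero]
    exact congrArg (W.tr X) (hW.pull_id _ (a 0))
  | n + 1, a => by
    rw [Fin.prod_univ_succ, ← tr_pow n, ← hW.kunneth _ _ hX (V_pow hW hX n), Coh.crs,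
      map_list_prod (W.pull _), List.ofFn_succ, List.prod_cons, List.map_ofFn]
    simp only [pr, Fin.cases_zero, Fin.cases_succ, hW.pull_comp]
    rfl

variable {t : H X} (ht : t ∈ W.B X) (hn : ∀ x, W.tr X (t * W.cl X x) = 0)
include ht hn

theorem num_pow {n : ℕ} {w} (hw : w ∈ W.B (pow X n)) :
    W.tr _ ((List.ofFn fun j => W.pull (pr X n j) t).prod * w) = 0 := by
  have a : ∀ u ∈ W.B X, W.tr X (t * u) = 0 := fun u =>
    B_le (U := LinearMap.ker (W.tr X ∘ₗ LinearMap.mulLeft Λ t)) hn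
  have v := V_pow hW hX n
  have b := B_mul hW v (B_list hW v (l := List.ofFn fun j : Fin n => W.pull (pr X n j.succ) t)
    fun x hx => by
      obtain ⟨i, rfl⟩ := List.mem_ofFn.1 hx
      exact B_pull hW v hX _ ht) hw
  rw [List.ofFn_succ, List.prod_cons, mul_assoc]
  cases n with
  | zero => exact (congrArg (W.tr X <| · * _) (hW.pull_id _ t)).trans (a _ b)
  | succ n =>
    obtain ⟨u, h1, h2⟩ := B_push hW hX (V_pow hW hX n) b
    exact (h2 t).trans (a u h1)

omit hn in
theorem tr_grid {n m : ℕ} (d : Fin m → ℕ) {l : List (Fin (n + 1) × Fin m)} (h1 : l.Nodup)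
    (h2 : ∀ z, z ∈ l) : ∃ ε : Λ, ∀ v : Fin (n + 1) × Fin m → H X, (∀ z, v z ∈ W.gr X (d z.2)) →
      ∏ j, W.tr X (t * (List.ofFn fun s => v (j, s)).prod) =
        ε * W.tr _ ((List.ofFn fun j => W.pull (pr X n j) t).prod *
          (l.map fun z => W.pull (pr X n z.1) (v z)).prod) := by
  have z := V_pow hW hX n
  obtain ⟨ε, e⟩ := sgn_list hW z (fun z => d z.2) ((List.perm_ext_iff_of_nodup
    ((List.nodup_finRange (n + 1)).product (List.nodup_finRange m)) h1).2 fun z =>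
      iff_of_true (List.mem_product.2 ⟨List.mem_finRange z.1, List.mem_finRange z.2⟩) (h2 z))
  refine ⟨ε, fun v hv => ?_⟩
  have g := fun y => hW.pull_gr _ _ z hX (pr X n y.1) _ _ (hv y)
  rw [← smul_eq_mul, ← _root_.map_smul, ← mul_smul_comm, ← e _ g, ← tr_pow hW hX]
  simp only [map_mul]
  rw [← lp_mul _ _ fun i j => B_comm hW z (B_pull hW z hX _ ht) (hW.pull_gr _ _ z hX _ _ _ (by
    rw [List.ofFn_eq_map]
    exact gr_list hW hX d _ (fun s => hv (j, s)) _))]
  congr 2
  simp only [SProd.sprod, List.product, List.flatMap_def, List.map_flatten, List.prod_flatten,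
    List.map_map, List.ofFn_eq_map, map_list_prod, Function.comp_def]

variable {C : Type} [Fintype C] [DecidableEq C] {ι : C → Type} [∀ i, Fintype (ι i)]
  [∀ i, DecidableEq (ι i)] {m : ℕ}

variable (W) in
omit hW hX ht hn in
/-- The form of a class on vectors of given colours. -/
def frm (t : H X) (e : (Σ i, ι i) → H X) (γ : Fin m → C) (I : Fin m → Σ i, ι i) : Λ :=
  if ∀ s, (I s).1 = γ s then W.tr X (t * (List.ofFn fun s => e (I s)).prod) else 0

end

end Pool.Agent.Lib.MP_035963_ag.HN
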