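import Mathlib

/-! Weil cohomology theories with cycle classes, and irreducible monodromy. -/

open CategoryTheory AlgebraicGeometry MonoidalCategory CartesianMonoidalCategory Module

namespace Pool.Agent.Lib.MP_035963_ag.HN

noncomputable section

variable {S : Scheme.{0}} (Λ : Type) [Field Λ] [CharZero Λ] (H : Over S → Type)
  [∀ X, Ring (H X)] [∀ X, Algebra Λ (H X)] [∀ X, Module ℚ (H X)]

/-- The data of a cohomology theory with cohomology rings `H`: a class `V` of varieties, the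
inverse image, the grading, the trace, and the class of the closure of each point. -/
structure Coh where
  V : Over S → Prop
  pull : ∀ {X Y}, (X ⟶ Y) → H Y →ₐ[Λ] H X
  gr : ∀ X, ℕ → Submodule Λ (H X)
  tr : ∀ X, H X →ₗ[Λ] Λ
  cl : ∀ X : Over S, X.left → H X

variable {Λ H} (W : Coh Λ H)

/-- The cross product. -/
def Coh.crs {X Y : Over S} (a : H X) (b : H Y) : H (X ⊗ Y) :=
  W.pull (fst X Y) a * W.pull (snd X Y) b

/-- The image of the rational cycle class map. -/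
def Coh.A (X : Over S) : Submodule ℚ (H X) := .span ℚ (Set.range (W.cl X))

/-- Its span over the field of coefficients. -/
def Coh.B (X : Over S) : Submodule Λ (H X) := .span Λ (Set.range (W.cl X))

/-- The axioms of a Weil cohomology that are used. -/
structure Coh.Weil : Prop where
  pull_id : ∀ X a, W.pull (𝟙 X) a = a
  pull_comp : ∀ X Y Z (f : X ⟶ Y) (g : Y ⟶ Z) a, W.pull (f ≫ g) a = W.pull f (W.pull g a)
  prod : ∀ X Y, W.V X → W.V Y → W.V (X ⊗ Y)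
  fin : ∀ X, W.V X → Module.Finite Λ (H X)
  one : ∀ X, W.V X → 1 ∈ W.gr X 0 ∧ 1 ∈ W.A X
  mul : ∀ X, W.V X → ∀ i j, ∀ a ∈ W.gr X i, ∀ b ∈ W.gr X j,
    a * b ∈ W.gr X (i + j) ∧ a * b = (-1 : Λ) ^ (i * j) • (b * a)
  pull_gr : ∀ X Y, W.V X → W.V Y → ∀ (f : X ⟶ Y) (i), ∀ a ∈ W.gr Y i, W.pull f a ∈ W.gr X i
  dual : ∀ X, W.V X → ∀ a, (∀ b, W.tr X (a * b) = 0) → a = 0
  kunneth : ∀ X Y, W.V X → W.V Y → ∀ a b, W.tr _ (W.crs a b) = W.tr X a * W.tr Y b
  cl_gr : ∀ X, W.V X → ∀ x, ∃ i, W.cl X x ∈ W.gr X (2 * i)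
  alg_mul : ∀ X, W.V X → ∀ a ∈ W.A X, ∀ b ∈ W.A X, a * b ∈ W.A X
  alg_pull : ∀ X Y, W.V X → W.V Y → ∀ f : X ⟶ Y, ∀ a ∈ W.A Y, W.pull f a ∈ W.A X
  alg_push : ∀ X Y, W.V X → W.V Y → ∀ w ∈ W.A (X ⊗ Y), ∃ u ∈ W.A X, ∀ a,
    W.tr _ (W.pull (fst X Y) a * w) = W.tr X (a * u)
  alg_tr : ∀ X, W.V X → ∀ a ∈ W.A X, ∃ q : ℚ, W.tr X a = q

variable (X : Over S)

/-- The pairs of an automorphism of the cohomology ring and a twist: the automorphism respects the
trace and fixes the classes of the points of `T`, up to powers of the twist. -/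
def Coh.Sym (T : Finset X.left) : Set ((H X ≃ₐ[Λ] H X) × Λˣ) :=
  {g | (∀ n, ∀ a ∈ W.gr X n, W.tr X (g.1 a) = g.2 ^ (n / 2) • W.tr X a) ∧
    ∀ x ∈ T, ∀ i, W.cl X x ∈ W.gr X (2 * i) → g.1 (W.cl X x) = g.2 ^ i • W.cl X x}

variable {X} {R : Type} [Ring R] [Algebra Λ R] {r : ℕ}

/-- A stable subspace. -/
def Stb (G : Set ((R ≃ₐ[Λ] R) × Λˣ)) (U : Submodule Λ R) : Prop := ∀ g ∈ G, ∀ u ∈ U, g.1 u ∈ U

/-- The product of the determinants on the subspaces is a power of the twist. -/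
def Tate (G : Set ((R ≃ₐ[Λ] R) × Λˣ)) (U : Fin r → Submodule Λ R) : Prop :=
  ∃ w : ℕ, ∀ g ∈ G, ∀ φ : ∀ i, Module.End Λ (U i), (∀ i u, (φ i u).1 = g.1 u) →
    ∏ i, LinearMap.det (φ i) = ↑(g.2 ^ w)

/-- A homogeneous irreducible subspace. -/
def Coh.Piece (G : Set ((H X ≃ₐ[Λ] H X) × Λˣ)) (U : Submodule Λ (H X)) : Prop :=
  (∃ d, U ≤ W.gr X d) ∧ Stb G U ∧ ∀ U' ≤ U, Stb G U' → U' = ⊥ ∨ U' = U

/-- The determinant class of `n` classes, spread along `n` maps to `X`. -/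
def Coh.dcl {Y : Over S} {n : ℕ} (b : Fin n → H X) (f : Fin n → (Y ⟶ X)) : H Y :=
  ∑ σ : Equiv.Perm (Fin n), Equiv.Perm.sign σ • (List.ofFn fun j => W.pull (f j) (b (σ j))).prod

/-- The subspaces are matched by a permutation and perfect algebraic classes on the square, or
a tensor power of the product of their determinant classes is algebraic. -/
def Coh.Alg {U : Fin r → Submodule Λ (H X)} {n : Fin r → ℕ} (b : ∀ i, Basis (Fin (n i)) Λ (U i)) :
    Prop :=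
  (∃ τ : Equiv.Perm (Fin r), ∀ i, ∃ b' : Basis (Fin (n i)) Λ (U (τ i)),
    ∑ x, W.crs (b i x).1 (b' x).1 ∈ W.B (X ⊗ X)) ∨
  ∃ e, ∀ Y, W.V Y → ∀ f : Fin (e + 1) → ∀ i, Fin (n i) → (Y ⟶ X),
    (List.ofFn fun j => (List.ofFn fun i => W.dcl (fun x => (b i x).1) (f j i)).prod).prod ∈ W.B Y

variable (X)

/-- For each finite set of prime cycles, some set of symmetries that fix them has pieces that
generate the cohomology ring, and their Tate classes of determinant type are algebraic. -/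
def Coh.Mono : Prop :=
  ∀ T, ∃ G ⊆ W.Sym X T, ∃ P ⊆ {U | W.Piece G U}, Algebra.adjoin Λ (⋃ U ∈ P, (U : Set (H X))) = ⊤ ∧
    ∀ (r : ℕ) (U : Fin r → Submodule Λ (H X)) (n : Fin r → ℕ)
      (b : ∀ i, Basis (Fin (n i)) Λ (U i)), (∀ i, U i ∈ P) → Tate G U → W.Alg b

end

end Pool.Agent.Lib.MP_035963_ag.HN
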