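import Pool.Agent.Lib.MP_035963_ag.HN.Coh

/-! Determinant classes. -/

open CategoryTheory MonoidalCategory CartesianMonoidalCategory Opposite Module Matrix

namespace Pool.Agent.Lib.MP_035963_ag.HN

set_option linter.unusedSectionVars false

noncomputable section

variable {S : AlgebraicGeometry.Scheme.{0}} {Λ : Type} [Field Λ] [CharZero Λ] {H : Over S → Type}
  [∀ X, Ring (H X)] [∀ X, Algebra Λ (H X)] [∀ X, Module ℚ (H X)] {W : Coh Λ H} {X Y Z : Over S}

theorem lp_dsum {R : Type} [Ring R] [Algebra Λ R] {M : ℕ} {π : Fin M → Type}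
    [∀ a, Fintype (π a)] (c : ∀ a, π a → Λ) (u : ∀ a, π a → R) :
    (List.ofFn fun a => ∑ p, c a p • u a p).prod =
      ∑ r : ∀ a, π a, (∏ a, c a (r a)) • (List.ofFn fun a => u a (r a)).prod :=
  ((MultilinearMap.mkPiAlgebraFin Λ M R).map_sum fun a p => c a p • u a p).trans
    (Finset.sum_congr rfl fun _ _ => MultilinearMap.map_smul_univ _ _ _)

theorem alt_basis {M N : Type} [AddCommGroup M] [Module Λ M] [AddCommGroup N] [Module Λ N] {n : ℕ}
    (b : Basis (Fin n) Λ M) (g : M [⋀^Fin n]→ₗ[Λ] N) (v) : g v = b.det v • g b := by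
  refine sub_eq_zero.1 ((Module.forall_dual_apply_eq_zero_iff Λ _).1 fun l => ?_)
  have := DFunLike.congr_fun ((l.compAlternatingMap g).eq_smul_basis_det b) v
  simp only [LinearMap.compAlternatingMap_apply, AlternatingMap.smul_apply, smul_eq_mul] at this
  rw [map_sub, _root_.map_smul, this, smul_eq_mul, mul_comm, sub_self]

theorem det_eq {n : ℕ} (b : Fin n → H X) (f : Fin n → (Y ⟶ X)) :
    W.dcl b f = ∑ σ : Equiv.Perm (Fin n), ((Equiv.Perm.sign σ : ℤ) : Λ) •
      (List.ofFn fun j => W.pull (f j) (b (σ j))).prod := by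
  simp only [Coh.dcl, Units.smul_def, Int.cast_smul_eq_zsmul]

theorem det_basis {U : Submodule Λ (H X)} {n : ℕ} (b : Basis (Fin n) Λ U) (v : Fin n → U)
    (f : Fin n → (Y ⟶ X)) : W.dcl (fun x => (v x).1) f = b.det v • W.dcl (fun x => (b x).1) f := by
  have := alt_basis b (MultilinearMap.alternatization ((MultilinearMap.mkPiAlgebraFin Λ n
    (H Y)).compLinearMap fun j => (W.pull (f j)).toLinearMap ∘ₗ U.subtype)) v
  simp only [MultilinearMap.alternatization_apply] at this
  exact this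

theorem det_pull (hW : W.Weil) {n : ℕ} (b : Fin n → H X) (f : Fin n → (Y ⟶ X)) (p : Z ⟶ Y) :
    W.pull p (W.dcl b f) = W.dcl b fun j => p ≫ f j := by
  simp only [det_eq, map_sum, _root_.map_smul, map_list_prod, List.map_ofFn, hW.pull_comp,
    Function.comp_def]

variable (hW : W.Weil) (hX : W.V X)
include hW hX

theorem gr_ofFn {n : ℕ} (d : Fin n → ℕ) (v : Fin n → H X) (h : ∀ x, v x ∈ W.gr X (d x)) :
    (List.ofFn v).prod ∈ W.gr X (∑ x, d x) := by
  rw [← List.sum_ofFn, List.ofFn_eq_map, List.ofFn_eq_map]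
  exact gr_list hW hX d v h _

theorem det_gr (hY : W.V Y) {n d : ℕ} {b : Fin n → H X} (hb : ∀ x, b x ∈ W.gr X d)
    (f : Fin n → (Y ⟶ X)) : W.dcl b f ∈ W.gr Y (∑ _ : Fin n, d) :=
  det_eq (W := W) b f ▸ sum_mem fun _ _ => Submodule.smul_mem _ _
    (gr_ofFn hW hY _ _ fun _ => hW.pull_gr _ _ hY hX _ _ _ (hb _))

theorem sgn_two {n : ℕ} (d d' : Fin n → ℕ) (σ : Equiv.Perm (Fin n)) : ∃ ε : Λ,
    ∀ v v' : Fin n → H X, (∀ x, v x ∈ W.gr X (d x)) → (∀ x, v' x ∈ W.gr X (d' x)) →
      (List.ofFn v).prod * (List.ofFn v').prod = ε • (List.ofFn fun j => v j * v' (σ j)).prod := by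
  obtain ⟨ε, e⟩ := sgn_list hW hX (Sum.elim d d')
    (l := (List.finRange n).map .inl ++ (List.finRange n).map .inr)
    (l' := (List.finRange n).flatMap fun j => [.inl j, .inr (σ j)])
    ((List.perm_ext_iff_of_nodup (List.nodup_append.2
      ⟨(List.nodup_finRange n).map Sum.inl_injective, (List.nodup_finRange n).map Sum.inr_injective,
        by simp⟩) (List.nodup_flatMap.2 ⟨fun x _ => by simp, (List.nodup_finRange n).imp
          fun h => by simp [Function.onFun, h.symm]⟩)).2 fun y => by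
            obtain x | x := y
            · simp
            · simpa [eq_comm] using σ.surjective x)
  refine ⟨ε, fun v v' h h' => ?_⟩
  simpa [List.flatMap_def, List.prod_flatten, List.ofFn_eq_map, Function.comp_def] using
    e (Sum.elim v v') fun y => by cases y <;> simp [h, h']

theorem pair_det (hY : W.V Y) {n d d' : ℕ} {b : Fin n → H X} (hb : ∀ x, b x ∈ W.gr X d)
    {U : Submodule Λ (H X)} (hU : U ≤ W.gr X d') (b' : Basis (Fin n) Λ U)
    (hc : ∑ x, W.crs (b x) (b' x).1 ∈ W.B (X ⊗ X)) (f f' : Fin n → (Y ⟶ X)) :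
    W.dcl b f * W.dcl (fun x => (b' x).1) f' ∈ W.B Y := by
  choose ε hε using fun σ => sgn_two hW hY (n := n) (fun _ => d) (fun _ => d') σ
  have a : ∀ σ : Equiv.Perm (Fin n), ∑ x : Fin n → Fin n, (List.ofFn fun j =>
      W.pull (f j) (b (x j))).prod * (List.ofFn fun j => W.pull (f' j) (b' (x (σ j))).1).prod
        ∈ W.B Y := fun σ => by
    refine Set.mem_of_eq_of_mem ?_ (Submodule.smul_mem _ (ε σ.symm) (B_list hW hY
      (l := List.ofFn fun j => W.pull (lift (f j) (f' (σ.symm j))) (∑ x, W.crs (b x) (b' x).1))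
      fun x hx => by
        obtain ⟨i, rfl⟩ := List.mem_ofFn.1 hx
        exact B_pull hW hY (hW.prod _ _ hX hX) _ hc))
    have := lp_dsum (fun _ _ => (1 : Λ)) fun j x =>
      W.pull (f j) (b x) * W.pull (f' (σ.symm j)) (b' x).1
    simp only [one_smul, Finset.prod_const_one] at this
    simp only [map_sum, Coh.crs, map_mul, ← hW.pull_comp, lift_fst, lift_snd, this, Finset.smul_sum]
    refine Finset.sum_congr rfl fun x _ => ?_
    rw [hε σ.symm _ _ (fun _ => hW.pull_gr _ _ hY hX _ _ _ (hb _))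
      fun _ => hW.pull_gr _ _ hY hX _ _ _ (hU (b' _).2)]
    simp only [Equiv.apply_symm_apply]
  refine Set.mem_of_eq_of_mem ?_ (sum_mem (t := Finset.univ) fun σ _ =>
    Submodule.smul_mem _ ((Equiv.Perm.sign σ : ℤ) : Λ) (a σ))
  simp only [Finset.smul_sum, ← mul_smul_comm]
  rw [Finset.sum_comm]
  have c : ∀ x : Fin n → Fin n, ∑ σ : Equiv.Perm (Fin n), ((Equiv.Perm.sign σ : ℤ) : Λ) •
      (List.ofFn fun j => W.pull (f' j) (b' (x (σ j))).1).prod = (∑ σ : Equiv.Perm (Fin n),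
        if σ = x then ((Equiv.Perm.sign σ : ℤ) : Λ) else 0) • W.dcl (fun x => (b' x).1) f' := by
    intro x
    rw [← det_eq (fun j => (b' (x j)).1), det_basis b' fun j => b' (x j), Basis.det_apply,
      Matrix.det_apply']
    refine congrArg (· • _) (Finset.sum_congr rfl fun σ _ => ?_)
    simp [Basis.toMatrix_apply, Finsupp.single_apply, Finset.prod_ite_zero, funext_iff, eq_comm]
  simp only [← Finset.mul_sum, c]
  simp only [Finset.sum_smul, Finset.mul_sum]
  rw [Finset.sum_comm, det_eq b, Finset.sum_mul]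
  simp

theorem alg_pow {r : ℕ} {U : Fin r → Submodule Λ (H X)} {n d : Fin r → ℕ}
    {b : ∀ i, Basis (Fin (n i)) Λ (U i)} (hd : ∀ i, U i ≤ W.gr X (d i)) (h : W.Alg b) :
    ∃ e, ∀ Y, W.V Y → ∀ f : Fin (e + 1) → ∀ i, Fin (n i) → (Y ⟶ X), (List.ofFn fun j =>
      (List.ofFn fun i => W.dcl (fun x => (b i x).1) (f j i)).prod).prod ∈ W.B Y := by
  refine h.elim (fun ⟨τ, h⟩ => ⟨1, fun Y hY f => ?_⟩) id
  have g := fun j i => det_gr hW hX hY (fun x => hd i (b i x).2) (f j i)
  obtain ⟨ε, e⟩ := sgn_two hW hY (fun i => ∑ _ : Fin (n i), d i) (fun i => ∑ _ : Fin (n i), d i) τ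
  simp only [List.ofFn_succ, List.ofFn_zero, List.prod_cons, List.prod_nil, mul_one]
  rw [e _ _ (g _) (g _)]
  refine Submodule.smul_mem _ _ (B_list hW hY fun x hx => ?_)
  obtain ⟨i, rfl⟩ := List.mem_ofFn.1 hx
  obtain ⟨b', hb⟩ := h i
  have a : ∀ (m : ℕ) (c : Basis (Fin m) Λ (U (τ i))) (p : Fin m → (Y ⟶ X)),
      W.dcl (fun x => (b i x).1) (f 0 i) * W.dcl (fun x => (c x).1) p ∈ W.B Y := fun m c p => by
    obtain rfl : m = n i := Fin.equiv_iff_eq.1 ⟨c.indexEquiv b'⟩
    rw [det_basis b' c, mul_smul_comm]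
    exact Submodule.smul_mem _ _ (pair_det hW hX hY (fun x => hd i (b i x).2) (hd _) b' hb _ _)
  exact a _ _ _

variable {t : H X} (ht : t ∈ W.B X) (hn : ∀ x, W.tr X (t * W.cl X x) = 0)
include ht hn

theorem pow_zero' {a D} (ha : a ∈ W.gr X D) {e : ℕ}
    (h : (List.ofFn fun j => W.pull (pr X e j) a).prod ∈ W.B (pow X e)) : W.tr X (t * a) = 0 := by
  have z := V_pow hW hX e
  have := num_pow hW hX ht hn h
  rw [lp_mul _ _ fun i j => B_comm hW z (B_pull hW z hX _ ht) (hW.pull_gr _ _ z hX _ _ _ ha)]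
    at this
  simp only [← map_mul, tr_pow hW hX, Finset.prod_const] at this
  exact eq_zero_of_pow_eq_zero this

theorem det_zero {m : ℕ} {U : Fin m → Submodule Λ (H X)} {n d : Fin m → ℕ}
    (b : ∀ i, Basis (Fin (n i)) Λ (U i)) (hd : ∀ i, U i ≤ W.gr X (d i)) {N r : ℕ}
    {κ : Fin r → Fin m} (E : (Σ i : Fin r, Fin (n (κ i))) ≃ Fin (N + 1) × Fin m)
    (hE : ∀ p, (E p).2 = κ p.1) (h : W.Alg fun i => b (κ i)) :
    ∑ π : ∀ i, Equiv.Perm (Fin (n (κ i))), (∏ i, ((Equiv.Perm.sign (π i) : ℤ) : Λ)) *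
      pw (frm W t (fun p : Σ i, Fin (n i) => (b p.1 p.2).1) id) (N + 1)
        (fun x => ⟨κ (E.symm x).1, π _ (E.symm x).2⟩) = 0 := by
  have z := V_pow hW hX N
  obtain ⟨e, he⟩ := alg_pow hW hX (fun i => hd (κ i)) h
  obtain ⟨ε, hε⟩ := tr_grid hW hX ht (n := N) d
    (l := ((List.finRange r).sigma fun i => List.finRange (n (κ i))).map E)
    (((List.nodup_finRange r).sigma fun _ => List.nodup_finRange _).map E.injective) fun y =>
      List.mem_map.2 ⟨E.symm y, List.mem_sigma.2 ⟨List.mem_finRange _, List.mem_finRange _⟩,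
        E.apply_symm_apply y⟩
  have c : ∀ x, κ (E.symm x).1 = x.2 := fun x => by rw [← hE, E.apply_symm_apply]
  have a := pow_zero' hW z (t := (List.ofFn fun j => W.pull (pr X N j) t).prod)
    (B_list hW z fun x hx => by
      obtain ⟨i, rfl⟩ := List.mem_ofFn.1 hx
      exact B_pull hW z hX _ ht) (fun x => num_pow hW hX ht hn (A_le (cl_mem x)))
    (gr_ofFn hW z _ _ fun i => det_gr hW hX z (fun x => hd (κ i) (b _ x).2)
      fun y => pr X N (E ⟨i, y⟩).1) (e := e) (by
        simp only [map_list_prod, List.map_ofFn, Function.comp_def, det_pull hW]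
        exact he _ (V_pow hW z e) _)
  simp only [det_eq, lp_dsum, Finset.mul_sum, map_sum, mul_smul_comm, _root_.map_smul,
    smul_eq_mul] at a
  rw [← mul_zero ε, ← a, Finset.mul_sum]
  refine Finset.sum_congr rfl fun π _ => ?_
  rw [mul_left_comm]
  refine congrArg _ (.trans ?_ ((hε (fun x => (b _ (π _ (E.symm x).2)).1) fun x =>
    c x ▸ hd _ (b _ _).2).trans ?_))
  · exact Finset.prod_congr rfl fun j _ => if_pos fun s => c (j, s)
  · simp only [List.sigma, List.flatMap_def, List.map_flatten, List.prod_flatten, List.map_map,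
      List.ofFn_eq_map, Function.comp_def]
    congr 5
    funext i
    congr 2
    funext y
    rw [E.symm_apply_apply]

end

end Pool.Agent.Lib.MP_035963_ag.HN
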