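import Mathlib

/-! The Farkas lemma over the rational numbers. -/

open Matrix

namespace Pool.Agent.Lib.MP_035963_ag.HN

/-- Homogeneous Farkas lemma. -/
theorem farkas0 {W ι : Type} [AddCommGroup W] [Module ℚ W] [DecidableEq ι] (s : Finset ι) :
    ∀ (A : ι → W →ₗ[ℚ] ℚ) (b : W →ₗ[ℚ] ℚ), (∀ x, (∀ i ∈ s, 0 ≤ A i x) → 0 ≤ b x) →
      ∃ l : ι → ℚ, (∀ i, 0 ≤ l i) ∧ b = ∑ i ∈ s, l i • A i := by
  induction s using Finset.induction_on with
  | empty =>
    intro A b h
    refine ⟨0, fun _ => le_rfl, LinearMap.ext fun x => ?_⟩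
    have h1 := h x (by simp)
    have h2 := h (-x) (by simp)
    rw [map_neg] at h2
    simpa using le_antisymm (by linarith) h1
  | insert a s ha ih =>
    intro A b h
    by_cases h0 : ∀ x, (∀ i ∈ s, 0 ≤ A i x) → 0 ≤ b x
    · obtain ⟨l, h1, h2⟩ := ih A b h0
      refine ⟨Function.update l a 0, fun i => ?_, ?_⟩
      · by_cases hi : i = a
        · simp [hi]
        · simp [hi, h1]
      · rw [Finset.sum_insert ha, Function.update_self, zero_smul, zero_add, h2]
        exact Finset.sum_congr rfl fun i hi => by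
          rw [Function.update_of_ne (ne_of_mem_of_not_mem hi ha)]
    · push Not at h0
      obtain ⟨y, hy, hb⟩ := h0
      have hA : A a y < 0 := lt_of_not_ge fun h' => (h y fun i hi => by
        rcases Finset.mem_insert.1 hi with rfl | hi
        exacts [h', hy i hi]).not_gt hb
      let P : W →ₗ[ℚ] W := LinearMap.id - (A a).smulRight ((A a y)⁻¹ • y)
      have hP : ∀ (c : W →ₗ[ℚ] ℚ) x, c (P x) = c x - A a x * ((A a y)⁻¹ * c y) := fun c x => by
        simp [P]
      obtain ⟨l, h1, h2⟩ := ih (fun i => A i ∘ₗ P) (b ∘ₗ P) fun x hx => h (P x) fun i hi => by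
        rcases Finset.mem_insert.1 hi with rfl | hi
        · rw [hP, inv_mul_cancel₀ hA.ne, mul_one, sub_self]
        · exact hx i hi
      refine ⟨Function.update l a ((A a y)⁻¹ * (b y - ∑ i ∈ s, l i * A i y)), fun i => ?_, ?_⟩
      · by_cases hi : i = a
        · rw [hi, Function.update_self]
          refine mul_nonneg_of_nonpos_of_nonpos (inv_nonpos.2 hA.le) ?_
          have := Finset.sum_nonneg fun i hi => mul_nonneg (h1 i) (hy i hi)
          linarith
        · simp [hi, h1]
      · have h5 : ∀ c, ∑ i ∈ s, Function.update l a c i • A i = ∑ i ∈ s, l i • A i := fun c =>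
          Finset.sum_congr rfl fun i hi => by
            rw [Function.update_of_ne (ne_of_mem_of_not_mem hi ha)]
        rw [Finset.sum_insert ha, Function.update_self, h5]
        refine LinearMap.ext fun x => ?_
        have h3 := LinearMap.congr_fun h2 x
        simp only [LinearMap.comp_apply, LinearMap.sum_apply, LinearMap.smul_apply, hP,
          smul_eq_mul, mul_sub, Finset.sum_sub_distrib] at h3
        simp only [LinearMap.add_apply, LinearMap.sum_apply, LinearMap.smul_apply, smul_eq_mul]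
        have h4 : ∑ i ∈ s, l i * (A a x * ((A a y)⁻¹ * A i y)) =
            A a x * ((A a y)⁻¹ * ∑ i ∈ s, l i * A i y) := by
          simp only [Finset.mul_sum]
          exact Finset.sum_congr rfl fun i _ => by ring
        rw [h4] at h3
        linear_combination h3

variable {σ : Type} [Fintype σ]

/-- Affine Farkas lemma. -/
theorem farkas {ι : Type} [Fintype ι] (v : ι → σ → ℚ) (b : ι → ℚ) :
    (∃ u : σ → ℚ, ∀ i, b i ≤ u ⬝ᵥ v i) ∨
      ∃ l : ι → ℚ, (∀ i, 0 ≤ l i) ∧ ∑ i, l i • v i = 0 ∧ 0 < ∑ i, l i * b i := by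
  classical
  let A : ι → ((σ → ℚ) × ℚ) →ₗ[ℚ] ℚ := fun i =>
    (dotProductBilin ℚ ℚ (v i)) ∘ₗ LinearMap.fst ℚ _ _ - b i • LinearMap.snd ℚ _ _
  have hA : ∀ i x, A i x = v i ⬝ᵥ x.1 - b i * x.2 := fun i x => by simp [A]
  by_cases h : ∀ x, (∀ i ∈ Finset.univ, 0 ≤ A i x) → 0 ≤ (-LinearMap.snd ℚ (σ → ℚ) ℚ) x
  · obtain ⟨l, h1, h2⟩ := farkas0 _ A _ h
    refine Or.inr ⟨l, h1, funext fun s => ?_, ?_⟩
    · have := LinearMap.congr_fun h2 (Pi.single s 1, 0)
      simpa [hA, eq_comm] using this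
    · have := LinearMap.congr_fun h2 (0, 1)
      simp only [LinearMap.neg_apply, LinearMap.snd_apply, LinearMap.sum_apply,
        LinearMap.smul_apply, hA, dotProduct_zero, mul_one, zero_sub, smul_eq_mul, mul_neg,
        Finset.sum_neg_distrib, neg_inj] at this
      rw [← this]; exact one_pos
  · push Not at h
    obtain ⟨⟨u, t⟩, h1, h2⟩ := h
    have ht : 0 < t := by simpa using h2
    refine Or.inl ⟨t⁻¹ • u, fun i => ?_⟩
    have := h1 i (Finset.mem_univ i)
    rw [hA] at this
    rw [smul_dotProduct, smul_eq_mul, le_inv_mul_iff₀ ht, dotProduct_comm]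
    linarith

/-- Clearing denominators. -/
theorem clear_den {ι : Type} [Fintype ι] (l : ι → ℚ) :
    ∃ (n : ℕ) (u : ι → ℤ), 0 < n ∧ ∀ i, (u i : ℚ) = n * l i := by
  classical
  refine ⟨∏ i, (l i).den, fun i => (∏ j ∈ Finset.univ.erase i, (l j).den : ℕ) * (l i).num,
    Finset.prod_pos fun i _ => (l i).den_pos, fun i => ?_⟩
  rw [← Finset.prod_erase_mul _ _ (Finset.mem_univ i)]
  push_cast
  rw [mul_assoc, Rat.den_mul_eq_num]

end Pool.Agent.Lib.MP_035963_ag.HN
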