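import Mathlib

/-! Two weighted bases of a space over a valued field have a common adapted basis. -/

open Matrix

namespace Pool.Agent.Lib.MP_035963_ag.HN

set_option linter.unusedSectionVars false

variable {K Γ ι : Type} [Field K] [LinearOrderedCommGroupWithZero Γ] [Fintype ι] [DecidableEq ι]
  (v : Valuation K Γ)

/-- The matrix does not increase the weighted norm. -/
def Tri (w : ι → Γ) (B : Matrix ι ι K) : Prop := ∀ x y, v (B x y) * w y ≤ w x

/-- The entries that are alone in their row and column. -/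
def Iso (A : Matrix ι ι K) : Set (ι × ι) :=
  {p | A p.1 p.2 ≠ 0 ∧ (∀ x, x ≠ p.1 → A x p.2 = 0) ∧ ∀ y, y ≠ p.2 → A p.1 y = 0}

variable {v} {w w' : ι → Γ}

theorem Tri.one : Tri v w 1 := by
  intro x y
  by_cases h : x = y
  · subst h
    simp
  · simp [Matrix.one_apply_ne h]

theorem Tri.mul {A B : Matrix ι ι K} (hA : Tri v w A) (hB : Tri v w B) : Tri v w (A * B) := by
  intro x y
  by_cases h : w y = 0
  · simp [h]
  rw [← le_div_iff₀ (zero_lt_iff.2 h), Matrix.mul_apply]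
  refine v.map_sum_le fun z _ => ?_
  rw [le_div_iff₀ (zero_lt_iff.2 h), v.map_mul, mul_assoc]
  exact (mul_le_mul' le_rfl (hB z y)).trans (hA x z)

theorem piv_add {A B : Matrix ι ι K} (hA : Tri v w A) (hB : Tri v w B) : Tri v w (A + B) :=
  fun x y => (mul_le_mul' (v.map_add _ _) le_rfl).trans <| by
    rcases max_choice (v (A x y)) (v (B x y)) with e | e <;> rw [e]
    exacts [hA x y, hB x y]

theorem piv_neg {A : Matrix ι ι K} (hA : Tri v w A) : Tri v w (-A) := fun x y => by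
  simpa using hA x y

theorem piv_el {p q : ι → K} (h : Tri v w (vecMulVec p q)) (e : q ⬝ᵥ p = 0) :
    Tri v w (1 - vecMulVec p q) ∧ Tri v w (1 + vecMulVec p q) ∧
      (1 - vecMulVec p q) * (1 + vecMulVec p q) = 1 := by
  refine ⟨sub_eq_add_neg (1 : Matrix ι ι K) _ ▸ piv_add Tri.one (piv_neg h), piv_add Tri.one h, ?_⟩
  simp [sub_mul, mul_add, vecMulVec_mul_vecMulVec, e]

theorem piv_step (hw : ∀ x, w x ≠ 0) (hw' : ∀ x, w' x ≠ 0) (A : Matrix ι ι K)
    (h : ∃ x y, A x y ≠ 0 ∧ (x, y) ∉ Iso A) : ∃ B B₁ B' B₁' : Matrix ι ι K, Tri v w B ∧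
      Tri v w B₁ ∧ Tri v w' B' ∧ Tri v w' B₁' ∧ B * B₁ = 1 ∧ B' * B₁' = 1 ∧
        Iso A ⊂ Iso (B' * A * B) := by
  classical
  obtain ⟨x₀, y₀, h₀⟩ := h
  obtain ⟨⟨x, y⟩, ⟨hA, hI⟩, hm⟩ := Set.exists_max_image {p : ι × ι | A p.1 p.2 ≠ 0 ∧ p ∉ Iso A}
    (fun p => v (A p.1 p.2) * w p.2 / w' p.1) (Set.toFinite _) ⟨(x₀, y₀), h₀⟩
  dsimp only at hA
  have hv : 0 < v (A x y) := zero_lt_iff.2 (by simpa using hA)
  have p : ∀ a, 0 < w a := fun a => zero_lt_iff.2 (hw a)
  have p' : ∀ a, 0 < w' a := fun a => zero_lt_iff.2 (hw' a)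
  obtain ⟨t1, t2, t3⟩ := piv_el (v := v) (w := w) (p := Pi.single y 1)
    (q := fun b => if b = y then 0 else A x b / A x y) (fun c b => by
      by_cases e : c = y
      · by_cases e' : b = y
        · simp [vecMulVec_apply, e']
        by_cases z : A x b = 0
        · simp [vecMulVec_apply, z]
        have := hm (x, b) ⟨z, fun q => hA (q.2.2 y (Ne.symm e'))⟩
        rw [div_le_div_iff_of_pos_right (p' x)] at this
        simp only [vecMulVec_apply, e, e', Pi.single_eq_same, one_mul, if_false, map_div₀]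
        rwa [div_mul_eq_mul_div, div_le_iff₀' hv]
      · simp [vecMulVec_apply, e]) (by simp)
  obtain ⟨s1, s2, s3⟩ := piv_el (v := v) (w := w') (q := Pi.single x 1)
    (p := fun a => if a = x then 0 else A a y / A x y) (fun a c => by
      by_cases e : c = x
      · by_cases e' : a = x
        · simp [vecMulVec_apply, e']
        by_cases z : A a y = 0
        · simp [vecMulVec_apply, z]
        have := hm (a, y) ⟨z, fun q => hA (q.2.1 x (Ne.symm e'))⟩
        rw [mul_div_right_comm, mul_div_right_comm, mul_le_mul_iff_left₀ (p y),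
          div_le_div_iff₀ (p' a) (p' x)] at this
        simp only [vecMulVec_apply, e, e', Pi.single_eq_same, mul_one, if_false, map_div₀]
        rwa [div_mul_eq_mul_div, div_le_iff₀' hv]
      · simp [vecMulVec_apply, e]) (by simp)
  refine ⟨_, _, _, _, t1, t2, s1, s2, t3, s3, ?_⟩
  generalize hM : (1 - vecMulVec _ _) * A * (1 - vecMulVec _ _) = M
  have e : ∀ a b, M a b = if a = x then (if b = y then A x y else 0)
      else A a b - A a y / A x y * A x b := fun a b => by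
    subst hM
    simp only [mul_sub, sub_mul, mul_one, one_mul, vecMulVec_mul, mul_vecMulVec, Matrix.sub_apply,
      vecMulVec_apply, mulVec_single_one, single_one_vecMul, col_apply, row_apply]
    by_cases h1 : a = x <;> by_cases h2 : b = y <;> simp [h1, h2, hA] <;> field_simp <;> ring
  refine ⟨fun ⟨a, b⟩ ⟨q1, q2, q3⟩ => ?_, fun q => hI (q ⟨?_, fun a ha => ?_, fun b hb => ?_⟩)⟩
  · dsimp only at q1 q2 q3
    have ha : a ≠ x := fun z => by
      subst z
      obtain rfl : y = b := by_contra fun z => hA (q3 y z)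
      exact hI ⟨q1, q2, q3⟩
    have hb : b ≠ y := fun z => by
      subst z
      exact hA (q2 x ha.symm)
    have z1 := q2 x ha.symm
    have z2 := q3 y hb.symm
    refine ⟨by simpa [e, ha, z1] using q1, fun c hc => ?_, fun c hc => ?_⟩
    · simp [e, hb, z1, q2 c hc]
    · simp [e, ha, z2, q3 c hc]
  · simpa [e] using hA
  · simp [e, show a ≠ x from ha, hA]
  · simp [e, show b ≠ y from hb]

theorem piv_end {A : Matrix ι ι K} (hA : A.det ≠ 0) (h : ∀ x y, A x y ≠ 0 → (x, y) ∈ Iso A) :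
    ∃ σ : Equiv.Perm ι, ∀ x y, A x y ≠ 0 ↔ x = σ y := by
  rw [det_apply] at hA
  obtain ⟨σ, -, hσ⟩ := Finset.exists_ne_zero_of_sum_ne_zero hA
  have z : ∀ y, A (σ y) y ≠ 0 := fun y e =>
    hσ (smul_eq_zero_of_right _ (Finset.prod_eq_zero (Finset.mem_univ y) e))
  exact ⟨σ, fun x y => ⟨fun e => by_contra fun q => e ((h _ _ (z y)).2.1 x q), fun e => e ▸ z y⟩⟩

theorem piv_det {B B₁ : Matrix ι ι K} (h : B * B₁ = 1) : B.det * B₁.det = 1 := by
  rw [← det_mul, h, det_one]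

variable (v) in
theorem pivot (hw : ∀ x, w x ≠ 0) (hw' : ∀ x, w' x ≠ 0) {A : Matrix ι ι K} (hA : A.det ≠ 0) :
    ∃ (B B₁ B' B₁' : Matrix ι ι K) (σ : Equiv.Perm ι), Tri v w B ∧ Tri v w B₁ ∧ Tri v w' B' ∧
      Tri v w' B₁' ∧ B * B₁ = 1 ∧ B' * B₁' = 1 ∧ ∀ x y, (B' * A * B) x y ≠ 0 ↔ x = σ y := by
  induction hs : Iso A using WellFoundedGT.induction generalizing A with
  | ind s ih =>
  by_cases h : ∃ x y, A x y ≠ 0 ∧ (x, y) ∉ Iso A
  · obtain ⟨B, B₁, B', B₁', a1, a2, a3, a4, a5, a6, a7⟩ := piv_step (v := v) hw hw' A h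
    obtain ⟨D, D₁, D', D₁', σ, b1, b2, b3, b4, b5, b6, b7⟩ := ih _ (hs ▸ a7) (A := B' * A * B) (by
      rw [det_mul, det_mul]
      exact mul_ne_zero (mul_ne_zero (left_ne_zero_of_mul_eq_one (piv_det a6)) hA)
        (left_ne_zero_of_mul_eq_one (piv_det a5))) rfl
    refine ⟨B * D, D₁ * B₁, D' * B', B₁' * D₁', σ, a1.mul b1, b2.mul a2, b3.mul a3, a4.mul b4,
      ?_, ?_, by simpa only [mul_assoc] using b7⟩
    · rw [mul_assoc, ← mul_assoc D, b5, one_mul, a5]
    · rw [mul_assoc, ← mul_assoc B', a6, one_mul, b6]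
  · push Not at h
    obtain ⟨σ, hσ⟩ := piv_end hA h
    exact ⟨1, 1, 1, 1, σ, .one, .one, .one, .one, mul_one _, mul_one _, by simpa using hσ⟩

/-- The matrix is triangular for real weights. -/
def Up (w w' : ι → ℝ) (B : Matrix ι ι K) : Prop := ∀ x y, B x y ≠ 0 → w x ≤ w' y

theorem bruhat (w w' : ι → ℝ) {A : Matrix ι ι K} (hA : A.det ≠ 0) :
    ∃ (B B₁ B' B₁' : Matrix ι ι K) (σ : Equiv.Perm ι), Up w w B ∧ Up w w B₁ ∧ Up w' w' B' ∧
      Up w' w' B₁' ∧ B * B₁ = 1 ∧ B' * B₁' = 1 ∧ ∀ x y, (B' * A * B) x y ≠ 0 ↔ x = σ y := by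
  classical
  have k : ∀ (u : ι → ℝ) (B : Matrix ι ι K), Tri (1 : Valuation K (WithZero (Multiplicative ℝ)))
      (fun x => WithZero.exp (-u x)) B → Up u u B := fun u B h x y e => by
    have := h x y
    rwa [Valuation.one_apply_of_ne_zero e, one_mul, WithZero.exp_le_exp, neg_le_neg_iff] at this
  obtain ⟨B, B₁, B', B₁', σ, a1, a2, a3, a4, a⟩ := pivot (1 : Valuation K _)
    (w := fun x => WithZero.exp (-w x)) (w' := fun x => WithZero.exp (-w' x))
    (fun _ => WithZero.exp_ne_zero) (fun _ => WithZero.exp_ne_zero) hA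
  exact ⟨B, B₁, B', B₁', σ, k _ _ a1, k _ _ a2, k _ _ a3, k _ _ a4, a⟩

theorem piv_sign (σ : Equiv.Perm ι) (a : K) : v (Equiv.Perm.sign σ • a) = v a := by
  rcases Int.units_eq_one_or (Equiv.Perm.sign σ) with e | e <;> simp [e]

theorem piv_unit {B B₁ : Matrix ι ι K} (h : B * B₁ = 1) (a : ∀ x y, v (B x y) ≤ 1)
    (b : ∀ x y, v (B₁ x y) ≤ 1) : v B.det = 1 := by
  have k : ∀ D : Matrix ι ι K, (∀ x y, v (D x y) ≤ 1) → v D.det ≤ 1 := fun D hD => by
    rw [det_apply]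
    refine v.map_sum_le fun σ _ => ?_
    rw [piv_sign, map_prod]
    exact Finset.prod_le_one' fun y _ => hD _ _
  refine le_antisymm (k B a) ?_
  rw [← v.map_one, ← piv_det h, v.map_mul]
  exact mul_le_of_le_one_right' (k B₁ b)

variable (v) in
theorem smith {A : Matrix ι ι K} (hA : A.det = 1) :
    ∃ (B B' B₁' : Matrix ι ι K) (σ : Equiv.Perm ι), (∀ x y, v (B x y) ≤ 1) ∧
      (∀ x y, v (B' x y) ≤ 1) ∧ (∀ x y, v (B₁' x y) ≤ 1) ∧ B' * B₁' = 1 ∧
        (∀ x y, (B' * A * B) x y ≠ 0 ↔ x = σ y) ∧ ∏ y, v ((B' * A * B) (σ y) y) = 1 := by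
  obtain ⟨B, B₁, B', B₁', σ, a1, a2, a3, a4, a5, a6, a7⟩ := pivot v (w := fun _ => 1)
    (w' := fun _ => 1) (fun _ => one_ne_zero) (fun _ => one_ne_zero) (hA ▸ one_ne_zero : A.det ≠ 0)
  simp only [Tri, mul_one] at a1 a2 a3 a4
  refine ⟨B, B', B₁', σ, a1, a3, a4, a6, a7, ?_⟩
  have e : v (B' * A * B).det = 1 := by
    rw [det_mul, det_mul, hA, mul_one, v.map_mul, piv_unit a5 a1 a2, piv_unit a6 a3 a4, mul_one]
  rwa [det_apply, Finset.sum_eq_single σ (fun τ _ h => ?_) (by simp), piv_sign, map_prod] at e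
  obtain ⟨y, hy⟩ := DFunLike.ne_iff.1 h
  exact smul_eq_zero_of_right _
    (Finset.prod_eq_zero (Finset.mem_univ y) (by_contra fun z => hy ((a7 _ _).1 z)))

end Pool.Agent.Lib.MP_035963_ag.HN
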