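import Pool.Agent.Lib.MP_035963_ag.HN.Tq
import Pool.Agent.Lib.MP_035963_ag.HN.Piv

/-! The optimal destabilizing flag is unique. -/

open Matrix

namespace Pool.Agent.Lib.MP_035963_ag.HN

set_option linter.unusedSectionVars false

noncomputable section

variable {F Λ : Type} [Field F] [Field Λ] [CharZero Λ] {S : Type} [Fintype S] [DecidableEq S]
  {C : Type} [Fintype C] [DecidableEq C] {ι : C → Type} [∀ i, Fintype (ι i)]
  [∀ i, DecidableEq (ι i)] {t : (S → Σ i, ι i) → F} {g g' : Blk ι F} {w w' : (Σ i, ι i) → ℝ}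

/-- An optimal destabilizing weighted basis. -/
def Opt (t : (S → Σ i, ι i) → F) (g : Blk ι F) (w : (Σ i, ι i) → ℝ) : Prop :=
  Des t g w ∧ ∀ g' w', Des t g' w' → ∑ x, w x ^ 2 ≤ ∑ x, w' x ^ 2

theorem Des.up (h : Des t g w) {b : Blk ι F} (hb : ∀ i, (b i).det ≠ 0)
    (hu : ∀ i, Up (fun x => w ⟨i, x⟩) (fun x => w ⟨i, x⟩) (b i)) : Des t (g * b) w := by
  refine ⟨fun i => ?_, h.sum, fun I hI => ?_⟩
  · rw [Pi.mul_apply, det_mul]
    exact mul_ne_zero (h.det i) (hb i)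
  · rw [tb_mul, ← vecMul_vecMul] at hI
    obtain ⟨J, hJ, hs⟩ := exists_of_vecMul hI
    exact (h.pos J hJ).trans (Finset.sum_le_sum fun s _ =>
      of_blockDiagonal' (P := fun a b => w a ≤ w b) (fun i x y e => hu i x y e) (hs s))

theorem Des.opt (h : Des t g w) : ∃ g w, Opt t g w := by
  let K : Set (S → Σ i, ι i) → Set ((Σ i, ι i) → ℝ) := fun A =>
    (⋂ i, {u | ∑ x, u ⟨i, x⟩ = 0}) ∩ ⋂ I ∈ A, {u | 1 ≤ ∑ s, u (I s)}
  let T : Set (Set (S → Σ i, ι i)) :=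
    {A | ∃ g : Blk ι F, (∀ i, (g i).det ≠ 0) ∧ A = {I | (t ᵥ* tb S g) I ≠ 0}}
  have hW : ∀ u, u ∈ ⋃ A ∈ T, K A ↔ ∃ g, Des t g u := by
    intro u
    simp only [K, T, Set.mem_iUnion, Set.mem_inter_iff, Set.mem_iInter, Set.mem_ofPred_eq]
    constructor
    · rintro ⟨A, ⟨g, hg, rfl⟩, h1, h2⟩
      exact ⟨g, hg, h1, h2⟩
    · rintro ⟨g, hg⟩
      exact ⟨_, ⟨g, hg.det, rfl⟩, hg.sum, hg.pos⟩
  have hc : IsClosed (⋃ A ∈ T, K A) := by
    refine (Set.toFinite T).isClosed_biUnion fun A _ => IsClosed.inter ?_ ?_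
    · exact isClosed_iInter fun i => isClosed_eq (by fun_prop) continuous_const
    · exact isClosed_biInter fun I _ => isClosed_le continuous_const (by fun_prop)
  have hf : Continuous fun u : (Σ i, ι i) → ℝ => ∑ x, u x ^ 2 := by fun_prop
  have h0 : 0 ≤ ∑ x, w x ^ 2 := Finset.sum_nonneg fun x _ => sq_nonneg _
  have hk : IsCompact ((⋃ A ∈ T, K A) ∩ {u | ∑ x, u x ^ 2 ≤ ∑ x, w x ^ 2}) := by
    refine Metric.isCompact_of_isClosed_isBounded (hc.inter (isClosed_le hf continuous_const)) ?_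
    refine (Metric.isBounded_closedBall (x := 0) (r := ∑ x, w x ^ 2 + 1)).subset fun u hu => ?_
    rw [mem_closedBall_zero_iff, pi_norm_le_iff_of_nonneg (by linarith)]
    intro x
    have h1 : u x ^ 2 ≤ ∑ x, u x ^ 2 :=
      Finset.single_le_sum (f := fun x => u x ^ 2) (fun x _ => sq_nonneg _) (Finset.mem_univ x)
    have h2 : ∑ x, u x ^ 2 ≤ ∑ x, w x ^ 2 := hu.2
    rw [Real.norm_eq_abs, abs_le]
    constructor <;> nlinarith [sq_nonneg (u x - 1), sq_nonneg (u x + 1)]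
  obtain ⟨u, hu, hm⟩ :=
    hk.exists_isMinOn ⟨w, (hW w).2 ⟨g, h⟩, le_refl (∑ x, w x ^ 2)⟩ hf.continuousOn
  obtain ⟨g₀, hg₀⟩ := (hW u).1 hu.1
  refine ⟨g₀, u, hg₀, fun g' w' h' => ?_⟩
  by_cases e : ∑ x, w' x ^ 2 ≤ ∑ x, w x ^ 2
  · exact hm ⟨(hW w').2 ⟨g', h'⟩, e⟩
  · exact le_trans hu.2 (not_le.1 e).le

theorem Opt.eq (h : Opt t g w) (h' : Des t g w') (e : ∑ x, w' x ^ 2 = ∑ x, w x ^ 2) :
    w' = w := by
  have hm : Des t g fun x => (w x + w' x) / 2 := by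
    refine ⟨h'.det, fun i => ?_, fun I hI => ?_⟩
    · rw [← Finset.sum_div, Finset.sum_add_distrib, h.1.sum, h'.sum]; simp
    · rw [← Finset.sum_div, Finset.sum_add_distrib]
      linarith [h.1.pos I hI, h'.pos I hI]
  have h1 := h.2 _ _ hm
  have h2 : ∑ x, (w' x - w x) ^ 2 =
      2 * ∑ x, w' x ^ 2 + 2 * ∑ x, w x ^ 2 - 4 * ∑ x, ((w x + w' x) / 2) ^ 2 := by
    simp only [Finset.mul_sum, ← Finset.sum_add_distrib, ← Finset.sum_sub_distrib]
    exact Finset.sum_congr rfl fun x _ => by ring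
  have h3 : ∑ x, (w' x - w x) ^ 2 = 0 :=
    le_antisymm (by linarith) (Finset.sum_nonneg fun x _ => sq_nonneg _)
  funext x
  have := (Finset.sum_eq_zero_iff_of_nonneg fun x _ => sq_nonneg _).1 h3 x (Finset.mem_univ x)
  exact sub_eq_zero.1 (pow_eq_zero_iff two_ne_zero |>.1 this)

theorem Opt.up (h : Opt t g w) {a : Blk ι F} (h' : Opt t (g * a) w') (i) :
    Up (fun x => w ⟨i, x⟩) (fun x => w' ⟨i, x⟩) (a i) := by
  have ha : ∀ i, (a i).det ≠ 0 := fun i => by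
    have := h'.1.det i
    rw [Pi.mul_apply, det_mul] at this
    exact right_ne_zero_of_mul this
  choose B B₁ B' B₁' σ u1 u2 u3 u4 e1 e2 hm using
    fun i => bruhat (fun x => w' ⟨i, x⟩) (fun x => w ⟨i, x⟩) (ha i)
  have e3 : ∀ i, B₁' i * B' i = 1 := fun i => mul_eq_one_comm.1 (e2 i)
  have d1 : ∀ i, (B i).det ≠ 0 := fun i =>
    left_ne_zero_of_mul_eq_one (by rw [← det_mul, e1, det_one])
  have d2 : ∀ i, (B₁' i).det ≠ 0 := fun i =>
    left_ne_zero_of_mul_eq_one (by rw [← det_mul, e3, det_one])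
  have k1 : Des t (g * B₁') w := h.1.up d2 u4
  have k2 : Des t (g * a * B) w' := h'.1.up d1 u1
  have e4 : g * a * B = g * B₁' * fun i => B' i * a i * B i := funext fun i => by
    simp only [Pi.mul_apply]
    rw [← Matrix.mul_assoc, ← Matrix.mul_assoc, Matrix.mul_assoc (g i) (B₁' i), e3, Matrix.mul_one]
  have k3 : Des t (g * B₁') fun x => w' ⟨x.1, (σ x.1).symm x.2⟩ := by
    refine ⟨k1.det, fun i => ?_, fun I hI => ?_⟩
    · exact (Equiv.sum_comp (σ i).symm fun x => w' ⟨i, x⟩).trans (k2.sum i)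
    · refine k2.pos (fun s => ⟨(I s).1, (σ _).symm (I s).2⟩) ?_
      rw [e4, tb_mul, ← vecMul_vecMul, vecMul_monomial (σ := σ) fun i x y e => (hm i x y).1 e]
      refine mul_ne_zero ?_ (Finset.prod_ne_zero_iff.2 fun s _ => (hm _ _ _).2 rfl)
      simpa only [Equiv.apply_symm_apply, Sigma.eta] using hI
  have k4 := Opt.eq ⟨k1, h.2⟩ k3 (by
    rw [le_antisymm (h.2 _ _ h'.1) (h'.2 _ _ h.1), Fintype.sum_sigma, Fintype.sum_sigma]
    exact Finset.sum_congr rfl fun i _ => Equiv.sum_comp (σ i).symm fun x => w' ⟨i, x⟩ ^ 2)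
  intro x y hxy
  have e5 : a i = B₁' i * (B' i * a i * B i) * B₁ i := by
    rw [← Matrix.mul_assoc, ← Matrix.mul_assoc, e3, Matrix.one_mul, Matrix.mul_assoc, e1,
      Matrix.mul_one]
  rw [e5, mul_apply] at hxy
  obtain ⟨z, -, hz⟩ := Finset.exists_ne_zero_of_sum_ne_zero hxy
  have hz1 := left_ne_zero_of_mul hz
  rw [mul_apply] at hz1
  obtain ⟨u, -, hu⟩ := Finset.exists_ne_zero_of_sum_ne_zero hz1
  have k5 := u4 i x u (left_ne_zero_of_mul hu)
  have k6 := u2 i z y (right_ne_zero_of_mul hz)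
  have k7 := congrFun k4 ⟨i, u⟩
  rw [(hm i u z).1 (right_ne_zero_of_mul hu)] at k7 k5
  simp only [Equiv.symm_apply_apply] at k7
  simp only at k5 k6 ⊢
  linarith

/-- The span of the basis vectors of negative weight. -/
def neg (g : Blk ι F) (w : (Σ i, ι i) → ℝ) (i : C) : Submodule F (ι i → F) :=
  (⨅ (x) (_ : 0 ≤ w ⟨i, x⟩), LinearMap.ker (LinearMap.proj x)).map (g i).mulVecLin

theorem kem_mem {i : C} {u : ι i → F} :
    u ∈ neg g w i ↔ ∃ a : ι i → F, (∀ x, 0 ≤ w ⟨i, x⟩ → a x = 0) ∧ g i *ᵥ a = u := by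
  simp [neg, Submodule.mem_iInf]

theorem Opt.neg_le (h : Opt t g w) (h' : Opt t g' w) (i) : neg g' w i ≤ neg g w i := by
  have e : g * (fun i => (g i)⁻¹ * g' i) = g' := funext fun i =>
    Matrix.mul_nonsing_inv_cancel_left _ _ (isUnit_iff_ne_zero.2 (h.1.det i))
  have hu := h.up (e.symm ▸ h') i
  intro u hu'
  obtain ⟨c, hc, rfl⟩ := kem_mem.1 hu'
  refine kem_mem.2 ⟨((g i)⁻¹ * g' i) *ᵥ c, fun x hx => Finset.sum_eq_zero fun y _ => ?_, ?_⟩
  · by_cases q : ((g i)⁻¹ * g' i) x y = 0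
    · exact mul_eq_zero_of_left q _
    · exact mul_eq_zero_of_right _ (hc y (hx.trans (hu x y q)))
  · rw [Matrix.mulVec_mulVec]
    exact congrArg (· *ᵥ c) (congrFun e i)

theorem Des.neg_ne (h : Des t g w) (ht : t ≠ 0) : ∃ i, neg g w i ≠ ⊥ ∧ neg g w i ≠ ⊤ := by
  have e : g * (fun i => (g i)⁻¹) = 1 := funext fun i =>
    Matrix.mul_nonsing_inv _ (isUnit_iff_ne_zero.2 (h.det i))
  have h0 : t ᵥ* tb S g ≠ 0 := fun z => ht (by
    rw [← Matrix.vecMul_one t, ← tb_one, ← e, tb_mul, ← Matrix.vecMul_vecMul, z,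
      Matrix.zero_vecMul])
  obtain ⟨I, hI⟩ := Function.ne_iff.1 h0
  have h1 := h.pos I hI
  obtain ⟨s, hs⟩ : ∃ s, 0 < w (I s) := by
    by_contra q
    push Not at q
    linarith [Finset.sum_nonpos (s := Finset.univ) fun s _ => q s]
  generalize I s = z at hs
  obtain ⟨i, x⟩ := z
  obtain ⟨y, hy⟩ : ∃ y, w ⟨i, y⟩ < 0 := by
    by_contra q
    push Not at q
    have := Finset.single_le_sum (s := Finset.univ) (fun y _ => q y) (Finset.mem_univ x)
    linarith [h.sum i]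
  have inj : Function.Injective (g i).mulVec := Matrix.mulVec_injective_iff_isUnit.2
    ((Matrix.isUnit_iff_isUnit_det _).2 (isUnit_iff_ne_zero.2 (h.det i)))
  refine ⟨i, fun z => ?_, fun z => ?_⟩
  · have m : g i *ᵥ Pi.single y 1 ∈ neg g w i := kem_mem.2 ⟨_, fun x' hx' =>
      Pi.single_eq_of_ne (by rintro rfl; linarith) _, rfl⟩
    rw [z, Submodule.mem_bot, ← Matrix.mulVec_zero (g i)] at m
    simpa using congrFun (inj m) y
  · have m : g i *ᵥ Pi.single x 1 ∈ neg g w i := z ▸ Submodule.mem_top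
    obtain ⟨a, ha, e⟩ := kem_mem.1 m
    simpa [ha x hs.le] using congrFun (inj e) x

theorem descent {n : Type} [Fintype n] {U : Submodule (AlgebraicClosure Λ) (n → AlgebraicClosure Λ)}
    (hU : ∀ τ : AlgebraicClosure Λ ≃ₐ[Λ] AlgebraicClosure Λ, ∀ u ∈ U, τ ∘ u ∈ U) (h : U ≠ ⊥) :
    ∃ u : n → Λ, u ≠ 0 ∧ algebraMap Λ _ ∘ u ∈ U := by
  classical
  obtain ⟨u, ⟨hu, h0⟩, hm⟩ := (wellFounded_lt.onFun
    (f := fun u : n → AlgebraicClosure Λ => (Finset.univ.filter fun x => u x ≠ 0).card)).has_min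
      {u | u ∈ U ∧ u ≠ 0} ((Submodule.ne_bot_iff U).1 h)
  obtain ⟨j, hj⟩ := Function.ne_iff.1 h0
  have hj : u j ≠ 0 := hj
  have hv : (u j)⁻¹ • u ∈ U := U.smul_mem _ hu
  have fx : ∀ τ : AlgebraicClosure Λ ≃ₐ[Λ] AlgebraicClosure Λ,
      τ ∘ ((u j)⁻¹ • u) - (u j)⁻¹ • u = 0 := fun τ => by
    by_contra q
    refine hm _ ⟨U.sub_mem (hU τ _ hv) hv, q⟩ (Finset.card_lt_card ⟨fun x hx => ?_, fun z => ?_⟩)
    · simp only [Finset.mem_filter, Finset.mem_univ, true_and] at hx ⊢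
      exact fun e => hx (by simp [e])
    · have := z (Finset.mem_filter.2 ⟨Finset.mem_univ j, hj⟩)
      simp [hj] at this
  have : ∀ x, ∃ c : Λ, algebraMap Λ _ c = ((u j)⁻¹ • u) x := fun x =>
    (InfiniteGalois.mem_range_algebraMap_iff_fixed _).2 fun τ =>
      sub_eq_zero.1 (congrFun (fx τ) x)
  choose c hc using this
  refine ⟨c, fun z => ?_, by rwa [show algebraMap Λ _ ∘ c = (u j)⁻¹ • u from funext hc]⟩
  simpa [z, hj] using hc j

theorem kempf {t : (S → Σ i, ι i) → Λ} (ht : t ≠ 0) {G : Set (Blk ι Λ)}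
    (hd : ∀ g ∈ G, ∀ i, (g i).det ≠ 0) (hi : ∀ g ∈ G, ∃ s : Λ, t ᵥ* tb S g = s • t)
    (hG : ∀ i (U : Submodule Λ (ι i → Λ)), (∀ g ∈ G, ∀ u ∈ U, g i *ᵥ u ∈ U) → U = ⊥ ∨ U = ⊤)
    (g w) : ¬Des (algebraMap Λ (AlgebraicClosure Λ) ∘ t) g w := by
  intro h
  obtain ⟨g, w, h⟩ := h.opt
  set φ := algebraMap Λ (AlgebraicClosure Λ) with hφ
  obtain ⟨i, hb, hT⟩ := h.1.neg_ne fun z => ht (funext fun I => φ.injective (by
    simpa using congrFun z I))
  have h1 : ∀ k ∈ G, ∀ u ∈ neg g w i, (k i).map φ *ᵥ u ∈ neg g w i := fun k hk u hu => by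
    obtain ⟨s, hs⟩ := hi k hk
    have o : Opt (φ ∘ t) ((fun i => (k i).map φ) * g) w := by
      refine ⟨⟨fun i => ?_, h.1.sum, fun I hI => h.1.pos I fun z => hI ?_⟩, h.2⟩
      · rw [Pi.mul_apply, Matrix.det_mul, ← RingHom.mapMatrix_apply, ← RingHom.map_det]
        exact mul_ne_zero ((map_ne_zero φ).2 (hd k hk i)) (h.1.det i)
      · rw [tb_mul, ← Matrix.vecMul_vecMul, vecMul_map, hs,
          show φ ∘ (s • t) = φ s • (φ ∘ t) from funext fun I => by simp, Matrix.smul_vecMul,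
          Pi.smul_apply, z]
        simp
    obtain ⟨a, ha, rfl⟩ := kem_mem.1 hu
    exact h.neg_le o i (kem_mem.2 ⟨a, ha, by rw [Matrix.mulVec_mulVec]; rfl⟩)
  have h2 : ∀ τ : AlgebraicClosure Λ ≃ₐ[Λ] AlgebraicClosure Λ, ∀ u ∈ neg g w i,
      τ ∘ u ∈ neg g w i := fun τ u hu => by
    have o : Opt (φ ∘ t) (fun i => (g i).map τ.toRingEquiv.toRingHom) w := by
      refine ⟨⟨fun i => ?_, h.1.sum, fun I hI => h.1.pos I fun z => hI ?_⟩, h.2⟩
      · rw [← RingHom.mapMatrix_apply, ← RingHom.map_det]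
        exact (map_ne_zero _).2 (h.1.det i)
      · have e : φ ∘ t = τ.toRingEquiv.toRingHom ∘ φ ∘ t := funext fun I => (τ.commutes _).symm
        rw [e, vecMul_map, Function.comp_apply, z, map_zero]
    obtain ⟨a, ha, rfl⟩ := kem_mem.1 hu
    refine h.neg_le o i (kem_mem.2 ⟨τ ∘ a, fun x hx => by simp [ha x hx], funext fun x => ?_⟩)
    exact (RingHom.map_mulVec τ.toRingEquiv.toRingHom (g i) a x).symm
  obtain ⟨u, u0, hu⟩ := descent h2 hb
  rcases hG i (((neg g w i).restrictScalars Λ).comap ((Algebra.linearMap Λ _).compLeft (ι i)))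
    (fun k hk u hu => by
      have := h1 k hk _ hu
      rwa [show (k i).map φ *ᵥ ((Algebra.linearMap Λ _).compLeft (ι i)) u =
        ((Algebra.linearMap Λ _).compLeft (ι i)) (k i *ᵥ u) from
          funext fun x => (RingHom.map_mulVec φ (k i) u x).symm] at this) with e | e
  · exact u0 ((Submodule.eq_bot_iff _).1 e u hu)
  · refine hT (Submodule.eq_top_iff'.2 fun v => ?_)
    rw [pi_eq_sum_univ v]
    refine Submodule.sum_mem _ fun x _ => Submodule.smul_mem _ _ ?_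
    have : φ ∘ (fun j => if x = j then (1 : Λ) else 0) ∈ neg g w i :=
      Submodule.eq_top_iff'.1 e _
    rwa [show φ ∘ (fun j => if x = j then (1 : Λ) else 0) = fun j => if x = j then 1 else 0 from
      funext fun j => by simp [apply_ite φ]] at this

end

end Pool.Agent.Lib.MP_035963_ag.HN
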