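import Pool.Agent.Lib.MP_035963_ag.HN.Rey
import Pool.Agent.Lib.MP_035963_ag.HN.Kem

/-! A tensor with irreducible stabilizer has a contraction that is not zero. -/

open Matrix Pool.Agent.Lib.MP_0d42ed_ag

namespace Pool.Agent.Lib.MP_035963_ag.HN

set_option linter.unusedSectionVars false

noncomputable section

variable {Λ : Type} [Field Λ] [CharZero Λ] {S : Type} [Fintype S] [DecidableEq S]
  {C : Type} [Fintype C] [DecidableEq C] {ι : C → Type} [∀ i, Fintype (ι i)]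
  [∀ i, DecidableEq (ι i)] {γ : S → C}

theorem git_blk {g : Matrix (Σ i, ι i) (Σ i, ι i) Λ} (k1 : TP.Col Sigma.fst g)
    (k2 : g.det ≠ 0) : ∃ b : Blk ι Λ, g = blockDiagonal' b ∧ ∀ i, (b i).det ≠ 0 := by
  have e : g = blockDiagonal' (blockDiag' g) := by
    ext ⟨i, x⟩ ⟨j, y⟩
    by_cases q : i = j
    · subst q
      rw [blockDiagonal'_apply_eq, blockDiag'_apply]
    · rw [blockDiagonal'_apply_ne _ _ _ q]
      exact k1 _ _ q
  refine ⟨_, e, fun i => ?_⟩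
  have k : blockDiag' g i * blockDiag' g⁻¹ i = 1 := by
    ext x y
    have := congrFun (congrFun (mul_nonsing_inv g k2.isUnit) ⟨i, x⟩) ⟨i, y⟩
    rw [mul_apply, Fintype.sum_sigma, Finset.sum_eq_single i (fun j _ q => Finset.sum_eq_zero
      fun z _ => mul_eq_zero_of_left (k1 _ _ q.symm) _) (by simp)] at this
    refine this.trans ?_
    simp [one_apply]
  exact (isUnit_det_of_right_inverse k).ne_zero

theorem git_sw {T P : (S → Σ i, ι i) → Λ} (hT : ∀ J, T J ≠ 0 → ∀ s, (J s).1 = γ s)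
    (hP : ∀ g : Blk ι Λ, (∀ i, (g i).det ≠ 0) → Semi P g) (h : T ⬝ᵥ P ≠ 0) {c : Blk ι Λ}
    (hc : ∀ i, (c i).det ≠ 0) :
    ∃ σ : Equiv.Perm S, ∑ J, T J * (tb S c *ᵥ T) (J ∘ σ) ≠ 0 := by
  have k := TP.schur_weyl (Sigma.fst : (Σ i, ι i) → C) (vecMulVec P P) fun g k1 k2 => by
    obtain ⟨b, rfl, hb⟩ := git_blk k1 k2
    obtain ⟨ε, -, a1, a2⟩ := hP b hb
    change vecMulVec P P * tb S b = tb S b * vecMulVec P P
    rw [vecMulVec_mul, mul_vecMulVec, a1, a2, vecMulVec_smul, smul_vecMulVec]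
  by_contra n
  simp only [not_exists, not_not] at n
  have k2 : ∀ Y ∈ Submodule.span Λ {Y : Matrix (S → Σ i, ι i) (S → Σ i, ι i) Λ |
      ∃ σ φ, Y = TP.mon (Sigma.fst : (Σ i, ι i) → C) σ φ},
        T ⬝ᵥ (Y *ᵥ (tb S c *ᵥ T)) = 0 := fun Y hY => by
    induction hY using Submodule.span_induction with
    | mem Y hY =>
      obtain ⟨σ, φ, rfl⟩ := hY
      rw [← mul_zero (∏ s, φ s (γ (σ s))), ← n σ, Finset.mul_sum]
      refine Finset.sum_congr rfl fun I _ => ?_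
      generalize tb S c *ᵥ T = W
      by_cases z : T I = 0
      · rw [z, zero_mul, zero_mul, mul_zero]
      simp only [mulVec, dotProduct, TP.p2_apply, ite_mul, zero_mul, Finset.sum_ite_eq,
        Finset.mem_univ, if_true, Function.comp_apply, hT I z]
      ring
    | zero => simp
    | add X Y _ _ a b => rw [add_mulVec, dotProduct_add, a, b, add_zero]
    | smul a X _ b => rw [smul_mulVec, dotProduct_smul, b, smul_zero]
  obtain ⟨ε, a0, -, a2⟩ := hP c hc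
  have k3 := k2 _ k
  rw [vecMulVec_mulVec, dotProduct_mulVec P, a2, smul_dotProduct, dotProduct_comm P T] at k3
  simp [dotProduct_smul, h, a0] at k3

theorem git_cut {T P : (S → Σ i, ι i) → Λ} (hT : ∀ J, T J ≠ 0 → ∀ s, (J s).1 = γ s)
    (h : T ⬝ᵥ P ≠ 0) (hP : ∀ i x y b, tb S (gen Λ i x y b) *ᵥ P = P) {c : Blk ι Λ}
    (hc : ∀ i, (c i).det ≠ 0) :
    ∃ σ : Equiv.Perm S, ∑ J, T J * (tb S c *ᵥ T) (J ∘ σ) ≠ 0 := by
  refine git_sw (P := fun J => if ∀ s, (J s).1 = γ s then P J else 0) hT (fun g hg =>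
    semi (fun J h => by_contra fun q => h (if_neg q)) (fun i x y b => cut_inv γ (hP i x y b)) hg)
    (fun e => h (Eq.trans (Finset.sum_congr rfl fun J _ => ?_) e)) hc
  by_cases z : T J = 0
  · rw [z, zero_mul, zero_mul]
  · exact congrArg _ (if_pos (hT J z)).symm

theorem git {t : (S → Σ i, ι i) → Λ} (ht : t ≠ 0) (hγ : ∀ J, t J ≠ 0 → ∀ s, (J s).1 = γ s)
    {G : Set (Blk ι Λ)} (hd : ∀ g ∈ G, ∀ i, (g i).det ≠ 0)
    (hi : ∀ g ∈ G, ∃ s : Λ, t ᵥ* tb S g = s • t)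
    (hG : ∀ i (U : Submodule Λ (ι i → Λ)), (∀ g ∈ G, ∀ u ∈ U, g i *ᵥ u ∈ U) → U = ⊥ ∨ U = ⊤)
    {c : Blk ι Λ} (hc : ∀ i, (c i).det ≠ 0) : ∃ (d : ℕ) (σ : Equiv.Perm (Fin (d + 1) × S)),
      ∑ J, pw t (d + 1) J * (tb _ c *ᵥ pw t (d + 1)) (J ∘ σ) ≠ 0 := by
  obtain ⟨d, P, h1, h2⟩ := Sep.inv (hm t (kempf ht hd hi hG))
  have hT : ∀ J, pw t (d + 1) J ≠ 0 → ∀ p : Fin (d + 1) × S, (J p).1 = γ p.2 := fun J h p =>
    hγ _ (Finset.prod_ne_zero_iff.1 h p.1 (Finset.mem_univ _)) p.2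
  exact ⟨d, git_cut hT h1 h2 hc⟩

end

end Pool.Agent.Lib.MP_035963_ag.HN
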