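import Pool.Agent.Lib.MP_035963_ag.HN.Tq
import Pool.Agent.Lib.MP_035963_ag.HN.Piv
import Pool.Agent.Lib.MP_035963_ag.HN.Far

/-! The numerical criterion. -/

open Matrix

namespace Pool.Agent.Lib.MP_035963_ag.HN

set_option linter.unusedSectionVars false

noncomputable section

variable {Λ : Type} [Field Λ] [CharZero Λ] {S : Type} [Fintype S] [DecidableEq S]
  {C : Type} [Fintype C] [DecidableEq C] {ι : C → Type} [∀ i, Fintype (ι i)]
  [∀ i, DecidableEq (ι i)] (t : (S → Σ i, ι i) → Λ)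

/-- A polynomial without constant term is equal to one on the orbit. -/
def Sep : Prop := ∃ (e : ℕ) (P : ∀ d : ℕ, (Fin (d + 1) × S → Σ i, ι i) → Λ),
  ∀ g : Blk ι Λ, (∀ i, (g i).det = 1) →
    ∑ d ∈ Finset.range e, pw (t ᵥ* tb S g) (d + 1) ⬝ᵥ P d = 1

theorem hm_val {A : Type} [CommRing A] [Algebra Λ A] {J : Type} (y : J → A)
    (h : ∀ p : MvPolynomial J Λ, p.constantCoeff = 0 → MvPolynomial.aeval y p ≠ 1) :
    ∃ (K : Type) (_ : Field K) (_ : Algebra Λ K) (φ : A →ₐ[Λ] K) (R : ValuationSubring K),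
      (∀ a, R.valuation (algebraMap Λ K a) ≤ 1) ∧ ∀ j, R.valuation (φ (y j)) < 1 := by
  let T : Submonoid A := ((⊥ : Submonoid Λ).comap
    (MvPolynomial.constantCoeff : MvPolynomial J Λ →+* Λ)).map (MvPolynomial.aeval y)
  have hT : ∀ p : MvPolynomial J Λ, p.constantCoeff = 0 → MvPolynomial.aeval y (1 - p) ∈ T :=
    fun p hp => ⟨1 - p, by simp [hp], rfl⟩
  obtain ⟨q, hq, -, hd⟩ := (⊥ : Ideal A).exists_le_prime_disjoint T (by
    rw [Set.disjoint_left]
    rintro a ha ⟨p, hp, rfl⟩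
    have hp' : p.constantCoeff = 1 := by simpa using hp
    have ha' : MvPolynomial.aeval y p = 0 := by simpa using ha
    exact h (1 - p) (by simp [hp']) (by simp [ha']))
  let K := FractionRing (A ⧸ q)
  let φ : A →ₐ[Λ] K := (IsScalarTower.toAlgHom Λ (A ⧸ q) K).comp (Ideal.Quotient.mkₐ Λ q)
  let ψ : MvPolynomial J Λ →+* K := (φ.comp (MvPolynomial.aeval y)).toRingHom
  obtain ⟨B, h1, h2⟩ := Ideal.image_subset_nonunits_valuationSubring (A := ψ.range)
    ((RingHom.ker (MvPolynomial.constantCoeff : MvPolynomial J Λ →+* Λ)).map ψ.rangeRestrict) (by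
      rw [Ideal.ne_top_iff_one]
      intro k
      obtain ⟨p, hp, e⟩ := (Ideal.mem_map_iff_of_surjective _ ψ.rangeRestrict_surjective).1 k
      have e1 : ψ (1 - p) = 0 := by
        rw [map_sub, map_one, sub_eq_zero]
        exact (congrArg Subtype.val e).symm
      have e2 : Ideal.Quotient.mk q (MvPolynomial.aeval y (1 - p)) = 0 :=
        (IsFractionRing.injective (A ⧸ q) K) (e1.trans (map_zero _).symm)
      exact Set.disjoint_left.1 hd (Ideal.Quotient.eq_zero_iff_mem.1 e2) (hT p hp))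
  refine ⟨K, inferInstance, inferInstance, φ, B, fun a => (B.valuation_le_one_iff _).2 (h1 ?_),
    fun j => B.mem_nonunits_iff.1 (h2 ⟨ψ.rangeRestrict (MvPolynomial.X j),
      Ideal.mem_map_of_mem _ (by simp), ?_⟩)⟩
  · exact ⟨MvPolynomial.C a, (φ.comp (MvPolynomial.aeval y)).commutes a⟩
  · exact congrArg φ (MvPolynomial.aeval_X y j)

theorem hm_list {X : Type} (L : List X) (h : L ≠ []) :
    ∃ (d : ℕ) (f : Fin (d + 1) → X), ∀ u : X → Λ, (L.map u).prod = ∏ j, u (f j) := by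
  obtain ⟨a, T, rfl⟩ := List.exists_cons_of_ne_nil h
  refine ⟨T.length, (a :: T).get, fun u => ?_⟩
  conv_lhs => rw [← List.ofFn_get (a :: T), List.map_ofFn, List.prod_ofFn]
  rfl

theorem hm_poly {p : MvPolynomial (S → Σ i, ι i) Λ} (hp : p.constantCoeff = 0) :
    ∃ (e : ℕ) (P : ∀ d : ℕ, (Fin (d + 1) × S → Σ i, ι i) → Λ), ∀ u,
      ∑ d ∈ Finset.range e, pw u (d + 1) ⬝ᵥ P d = MvPolynomial.aeval u p := by
  have key : ∀ m ∈ p.support, ∃ (d : ℕ) (v : (Fin (d + 1) × S → Σ i, ι i) → Λ), ∀ u,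
      pw u (d + 1) ⬝ᵥ v = p.coeff m * ∏ i ∈ m.support, u i ^ m i := by
    intro m hm
    obtain ⟨d, f, hf⟩ := hm_list (Λ := Λ) m.toMultiset.toList (by
      rw [Ne, Multiset.toList_eq_nil, Finsupp.toMultiset_eq_iff, map_zero]
      intro e
      rw [e] at hm
      exact MvPolynomial.mem_support_iff.1 hm hp)
    refine ⟨d, Pi.single (fun x => f x.1 x.2) (p.coeff m), fun u => ?_⟩
    rw [dotProduct_single, mul_comm]
    refine congrArg _ ((hf u).symm.trans ?_)
    rw [Multiset.prod_map_toList, Finsupp.toMultiset_map, Finsupp.prod_toMultiset,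
      Finsupp.prod_mapDomain_index (by simp) (by simp [pow_add])]
    rfl
  choose! d v hv using key
  refine ⟨p.support.sup d + 1, ∑ m ∈ p.support, Pi.single (d m) (v m), fun u => ?_⟩
  rw [MvPolynomial.aeval_def, MvPolynomial.eval₂_eq]
  simp only [Finset.sum_apply, dotProduct_sum]
  rw [Finset.sum_comm]
  refine Finset.sum_congr rfl fun m hm => ?_
  rw [Finset.sum_eq_single (d m) (fun b _ hb => by rw [Pi.single_eq_of_ne hb, dotProduct_zero])
    (fun k => absurd (Finset.mem_range.2 (Nat.lt_succ_of_le (Finset.le_sup hm))) k),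
    Pi.single_eq_same, hv m hm]
  rfl

theorem hm_sep {p : MvPolynomial (S → Σ i, ι i) Λ} (hp : p.constantCoeff = 0)
    (h : ∀ g : Blk ι Λ, (∀ i, (g i).det = 1) → MvPolynomial.aeval (t ᵥ* tb S g) p = 1) :
    Sep t := by
  obtain ⟨e, P, hP⟩ := hm_poly hp
  exact ⟨e, P, fun g hg => (hP _).trans (h g hg)⟩

theorem hm_one (h : ¬Sep t) : ∃ (K : Type) (_ : Field K) (_ : Algebra Λ K)
    (R : ValuationSubring K) (g : Blk ι K), (∀ a, R.valuation (algebraMap Λ K a) ≤ 1) ∧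
      (∀ i, (g i).det = 1) ∧ ∀ I, R.valuation (((algebraMap Λ K ∘ t) ᵥ* tb S g) I) < 1 := by
  let A := {g : Blk ι Λ // ∀ i, (g i).det = 1} → Λ
  let G : Blk ι A := fun i => Matrix.of fun x y g => g.1 i x y
  obtain ⟨K, _, _, φ, R, h1, h2⟩ := hm_val (Λ := Λ) ((algebraMap Λ A ∘ t) ᵥ* tb S G) fun p hp e =>
    h (hm_sep t hp fun g hg => by
      have e1 := vecMul_map (Pi.evalRingHom (fun _ => Λ) ⟨g, hg⟩) (algebraMap Λ A ∘ t) G
      have e2 := MvPolynomial.comp_aeval_apply ((algebraMap Λ A ∘ t) ᵥ* tb S G)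
        (Pi.evalAlgHom Λ (fun _ => Λ) ⟨g, hg⟩) p
      rw [e, map_one] at e2
      exact (congrArg (fun u => MvPolynomial.aeval u p) e1).trans e2.symm)
  refine ⟨K, _, _, R, fun i => (G i).map φ.toRingHom, h1, fun i => ?_, fun I => ?_⟩
  · have e : (G i).det = 1 := funext fun g =>
      (RingHom.map_det (Pi.evalRingHom (fun _ => Λ) g) (G i)).trans (g.2 i)
    exact (RingHom.map_det φ.toRingHom (G i)).symm.trans (by rw [e, map_one])
  · have e : algebraMap Λ K ∘ t = φ.toRingHom ∘ (algebraMap Λ A ∘ t) :=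
      funext fun I => (φ.commutes _).symm
    rw [e, vecMul_map]
    exact h2 I

theorem hm_lp0 {M : Type} [AddCommGroup M] [LinearOrder M] [IsOrderedAddMonoid M]
    (α : (Σ i, ι i) → M) (h1 : ∀ i, ∑ x, α ⟨i, x⟩ = 0) :
    ∃ w : (Σ i, ι i) → ℝ, (∀ i, ∑ x, w ⟨i, x⟩ = 0) ∧
      ∀ I : S → Σ i, ι i, ∑ s, α (I s) < 0 → 1 ≤ ∑ s, w (I s) := by
  classical
  let V : {I : S → Σ i, ι i // ∑ s, α (I s) < 0} ⊕ C × ℤˣ → (Σ i, ι i) → ℤ :=
    Sum.elim (fun I => ∑ s, Pi.single (I.1 s) 1) fun p => p.2.1 • ∑ y, Pi.single ⟨p.1, y⟩ 1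
  rcases farkas (fun j x => (V j x : ℚ)) (Sum.elim (fun _ => 1) fun _ => 0) with
    ⟨u, hu⟩ | ⟨l, l0, l1, l2⟩
  · have e : ∀ j, (u ⬝ᵥ fun x => (V j x : ℚ)) = Fintype.linearCombination ℤ u (V j) := fun j => by
      simp [Fintype.linearCombination_apply, dotProduct, mul_comm]
    simp only [e] at hu
    refine ⟨fun x => u x, fun i => ?_, fun I hI => ?_⟩
    · have a := hu (.inr (i, 1))
      have b := hu (.inr (i, -1))
      simp [V] at a b
      beta_reduce
      exact_mod_cast le_antisymm b a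
    · have a := hu (.inl ⟨I, hI⟩)
      simp [V] at a
      beta_reduce
      exact_mod_cast a
  obtain ⟨n, u, hn, hu⟩ := clear_den l
  have hn' : (0 : ℚ) < n := by exact_mod_cast hn
  have e : ∑ j, u j • V j = 0 := funext fun x => by
    have := congrArg ((n : ℚ) * ·) (congrFun l1 x)
    simp only [Finset.sum_apply, Pi.smul_apply, smul_eq_mul, Finset.mul_sum, ← mul_assoc, ← hu,
      Pi.zero_apply, mul_zero] at this ⊢
    exact_mod_cast this
  have e' := congrArg (Fintype.linearCombination ℤ α) e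
  simp only [Fintype.sum_sum_type, V, Sum.elim_inl, Sum.elim_inr, map_add, map_sum, map_smul,
    Fintype.linearCombination_apply_single, one_smul, h1, smul_zero, Finset.sum_const_zero,
    add_zero, map_zero, mul_one, mul_zero] at e' l2
  obtain ⟨I, -, hI⟩ := Finset.exists_lt_of_sum_lt (Finset.sum_const_zero.trans_lt l2)
  refine (e'.not_lt (Finset.sum_neg' (fun J _ => ?_) ⟨I, Finset.mem_univ _, ?_⟩)).elim
  · exact smul_nonpos_of_nonneg_of_nonpos
      (by exact_mod_cast (mul_nonneg hn'.le (l0 _)).trans_eq (hu _).symm) J.2.le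
  · exact smul_neg_of_pos_of_neg (by exact_mod_cast (mul_pos hn' hI).trans_eq (hu _).symm) I.2

theorem hm_lp {Γ : Type} [LinearOrderedCommGroupWithZero Γ] (a : (Σ i, ι i) → Γ)
    (h1 : ∀ i, ∏ x, a ⟨i, x⟩ = 1) : ∃ w : (Σ i, ι i) → ℝ, (∀ i, ∑ x, w ⟨i, x⟩ = 0) ∧
      ∀ I : S → Σ i, ι i, ∏ s, a (I s) < 1 → 1 ≤ ∑ s, w (I s) := by
  have h0 : ∀ x, a x ≠ 0 := fun ⟨i, x⟩ =>
    Finset.prod_ne_zero_iff.1 ((h1 i).trans_ne one_ne_zero) x (Finset.mem_univ x)
  obtain ⟨w, a1, a2⟩ := hm_lp0 (S := S) (fun x => Additive.ofMul (Units.mk0 (a x) (h0 x))) fun i => by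
    rw [← ofMul_prod, ofMul_eq_zero]
    exact Units.ext (by simpa using h1 i)
  refine ⟨w, a1, fun I hI => a2 I ?_⟩
  rw [← ofMul_prod, ← ofMul_one, Additive.ofMul_lt, ← Units.val_lt_val]
  simpa using hI

variable {K Γ : Type} [Field K] [Algebra Λ K] [LinearOrderedCommGroupWithZero Γ]
  (v : Valuation K Γ) (hv : ∀ a, v (algebraMap Λ K a) ≤ 1)

theorem hm_tb {B : Blk ι K} (h : ∀ i x y, v (B i x y) ≤ 1) (I J : S → Σ i, ι i) :
    v (tb S B I J) ≤ 1 := by
  rw [tb, tq_apply, map_prod]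
  refine Finset.prod_le_one' fun s _ => ?_
  obtain ⟨i, x⟩ := I s
  obtain ⟨j, y⟩ := J s
  by_cases q : i = j
  · subst q
    rw [blockDiagonal'_apply_eq]
    exact h _ _ _
  · rw [blockDiagonal'_apply_ne _ _ _ q, map_zero]
    exact zero_le_one

theorem hm_ev {J A : Type} [CommRing A] [Algebra Λ A] (y : J → A) (X : Blk ι (MvPolynomial J Λ))
    (I : S → Σ i, ι i) : MvPolynomial.aeval y (((MvPolynomial.C ∘ t) ᵥ* tb S X) I) =
      ((algebraMap Λ A ∘ t) ᵥ* tb S fun i => (X i).map (MvPolynomial.aeval y)) I := by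
  have := congrFun (vecMul_map (MvPolynomial.aeval y : MvPolynomial J Λ →ₐ[Λ] A).toRingHom
    (MvPolynomial.C ∘ t) X) I
  rw [show _ ∘ MvPolynomial.C ∘ t = algebraMap Λ A ∘ t from funext fun _ => by simp] at this
  exact this.symm

include hv

theorem hm_two {g : Blk ι K} (hg : ∀ i, (g i).det = 1)
    (h : ∀ I, v (((algebraMap Λ K ∘ t) ᵥ* tb S g) I) < 1) :
    ∃ (b b' : Blk ι K) (w : (Σ i, ι i) → ℝ), (∀ i x y, v (b i x y) ≤ 1) ∧
      (∀ i x y, v (b' i x y) ≤ 1) ∧ b' * b = 1 ∧ (∀ i, ∑ x, w ⟨i, x⟩ = 0) ∧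
        ∀ I, v (((algebraMap Λ K ∘ t) ᵥ* tb S b) I) < 1 ∨ 1 ≤ ∑ s, w (I s) := by
  choose B B' B₁ σ h1 h2 h3 h4 h5 h6 using fun i => smith v (hg i)
  obtain ⟨w, a1, a2⟩ := hm_lp (S := S)
    (fun x => v ((B' x.1 * g x.1 * B x.1) x.2 ((σ x.1).symm x.2))) fun i => by
      rw [← h6 i, ← Equiv.prod_comp (σ i)]
      simp only [Equiv.symm_apply_apply]
  refine ⟨B₁, B', w, h3, h2, funext h4, a1, fun I => (lt_or_ge _ _).imp_right fun h7 => a2 I ?_⟩
  have e := vecMul_monomial (m := B' * g * B) (fun i x y => (h5 i x y).1)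
    ((algebraMap Λ K ∘ t) ᵥ* tb S B₁) fun s => ⟨(I s).1, (σ _).symm (I s).2⟩
  have e' : B₁ * (B' * g * B) = g * B := funext fun i => by
    simp only [Pi.mul_apply, ← Matrix.mul_assoc, mul_eq_one_comm.1 (h4 i), Matrix.one_mul]
  simp only [Equiv.apply_symm_apply, vecMul_vecMul, ← tb_mul, e'] at e
  rw [tb_mul, ← vecMul_vecMul] at e
  have h8 := (congrArg v e).symm.trans_lt (v.map_sum_lt one_ne_zero fun J _ =>
    (v.map_mul _ _).trans_lt ((mul_le_of_le_one_right' (hm_tb v h1 J _)).trans_lt (h J)))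
  rw [v.map_mul, map_prod] at h8
  exact (le_mul_of_one_le_left' h7).trans_lt h8

theorem hm_pt {J : Type} [Finite J] (x : J → K) (hx : ∀ j, v (x j) ≤ 1) :
    ∃ z : J → AlgebraicClosure Λ, ∀ p : MvPolynomial J Λ, v (MvPolynomial.aeval x p) < 1 →
      MvPolynomial.aeval z p = 0 := by
  have h1 : ∀ p : MvPolynomial J Λ, v (MvPolynomial.aeval x p) ≤ 1 := fun p => by
    induction p using MvPolynomial.induction_on with
    | C a => simpa using hv a
    | add p q hp hq => rw [map_add]; exact v.map_add_le hp hq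
    | mul_X p j hp => rw [map_mul, v.map_mul, MvPolynomial.aeval_X]; exact mul_le_one' hp (hx j)
  let I : Ideal (MvPolynomial J Λ) :=
    { carrier := {p | v (MvPolynomial.aeval x p) < 1}
      add_mem' := fun hp hq => by rw [Set.mem_setOf_eq, map_add]; exact v.map_add_lt hp hq
      zero_mem' := by simp
      smul_mem' := fun c p hp => by
        rw [Set.mem_setOf_eq, smul_eq_mul, map_mul, v.map_mul]
        exact (mul_le_of_le_one_left' (h1 c)).trans_lt hp }
  obtain ⟨M, hM, h⟩ := I.exists_le_maximal ((Ideal.ne_top_iff_one I).2 fun h => by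
    have : v (MvPolynomial.aeval x (1 : MvPolynomial J Λ)) < 1 := h
    simp at this)
  obtain ⟨z, rfl⟩ := MvPolynomial.eq_vanishingIdeal_singleton_of_isMaximal (AlgebraicClosure Λ) hM
  exact ⟨z, fun p hp => (MvPolynomial.mem_vanishingIdeal_singleton_iff z p).1 (h hp)⟩

theorem hm_three {b b' : Blk ι K} {w : (Σ i, ι i) → ℝ} (h1 : ∀ i x y, v (b i x y) ≤ 1)
    (h2 : ∀ i x y, v (b' i x y) ≤ 1) (h3 : b' * b = 1) (h4 : ∀ i, ∑ x, w ⟨i, x⟩ = 0)
    (h5 : ∀ I, v (((algebraMap Λ K ∘ t) ᵥ* tb S b) I) < 1 ∨ 1 ≤ ∑ s, w (I s)) :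
    ∃ g, Des (algebraMap Λ (AlgebraicClosure Λ) ∘ t) g w := by
  let x : Bool × (Σ i, ι i × ι i) → K := fun j => cond j.1 b b' j.2.1 j.2.2.1 j.2.2.2
  let X : Bool → Blk ι (MvPolynomial (Bool × Σ i, ι i × ι i) Λ) := fun c i =>
    Matrix.of fun p q => MvPolynomial.X (c, ⟨i, p, q⟩)
  have hX : ∀ c i, (X c i).map (MvPolynomial.aeval x) = cond c b b' i := fun c i => by
    ext p q
    simp [X, x]
  obtain ⟨z, hz⟩ := hm_pt v hv x fun ⟨c, _⟩ => by cases c; exacts [h2 _ _ _, h1 _ _ _]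
  refine ⟨fun i => (X true i).map (MvPolynomial.aeval z), fun i => ?_, h4,
    fun I hI => (h5 I).resolve_left fun h => hI ?_⟩
  · have e : ∀ {A : Type} [CommRing A] [Algebra Λ A] (y : _ → A) p q,
        MvPolynomial.aeval y ((X false i * X true i - 1) p q) =
          ((X false i).map (MvPolynomial.aeval y) * (X true i).map (MvPolynomial.aeval y) - 1) p q :=
      fun y p q => by
        simp [Matrix.mul_apply, Matrix.one_apply]
    refine (Matrix.isUnit_det_of_left_inverse (B := (X false i).map (MvPolynomial.aeval z))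
      (sub_eq_zero.1 (Matrix.ext fun p q => ?_))).ne_zero
    refine (e z p q).symm.trans (hz _ ?_)
    rw [e, hX, hX, show cond false b b' i * cond true b b' i = 1 from congrFun h3 i]
    simp
  · rw [← hm_ev]
    refine hz _ ?_
    simp only [hm_ev, hX]
    exact h

omit hv in
theorem hm (h : ∀ g w, ¬Des (algebraMap Λ (AlgebraicClosure Λ) ∘ t) g w) : Sep t := by
  by_contra n
  obtain ⟨K, _, _, R, g, h1, h2, h3⟩ := hm_one t n
  obtain ⟨b, b', w, a1, a2, a3, a4, a5⟩ := hm_two t _ h1 h2 h3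
  exact (hm_three t _ h1 a1 a2 a3 a4 a5).elim fun g => h g w

end

end Pool.Agent.Lib.MP_035963_ag.HN
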