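import Pool.Agent.Lib.MP_035963_ag.HN.HM

/-! The projection to the invariants. -/

open Matrix

namespace Pool.Agent.Lib.MP_035963_ag.HN

set_option linter.unusedSectionVars false

noncomputable section

variable {Λ : Type} [Field Λ] [CharZero Λ] {S : Type} [Fintype S] [DecidableEq S]
  {C : Type} [Fintype C] [DecidableEq C] {ι : C → Type} [∀ i, Fintype (ι i)]
  [∀ i, DecidableEq (ι i)]

theorem rey_pow {n : Type} [Fintype n] [DecidableEq n] {Q : Matrix n n ℚ} (hQ : Qᴴ = Q) (k : ℕ)
    (B : Matrix n n ℚ) (h : Q ^ k * B = 0) : Q * B = 0 := by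
  induction k generalizing B with
  | zero => rw [pow_zero, Matrix.one_mul] at h; rw [h, Matrix.mul_zero]
  | succ k ih =>
    rw [pow_succ, Matrix.mul_assoc] at h
    have e := ih _ h
    rw [← Matrix.mul_assoc] at e
    exact (conjTranspose_mul_self_mul_eq_zero Q B).1 (by rw [hQ]; exact e)

theorem rey_poly {n H : Type} [Fintype n] [DecidableEq n] [Fintype H] (A : H → Matrix n n ℚ) :
    ∃ p : Polynomial ℚ, ∀ h,
      A h * (1 - Polynomial.aeval (∑ h, (A h)ᵀ * A h) p * ∑ h, (A h)ᵀ * A h) = 0 := by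
  obtain ⟨B, hB⟩ : ∃ B : Matrix (H × n) n ℚ, B = Matrix.of fun a j => A a.1 a.2 j := ⟨_, rfl⟩
  have e : ∑ h, (A h)ᵀ * A h = Bᴴ * B := by
    ext i j
    simp [hB, Matrix.sum_apply, Matrix.mul_apply, Fintype.sum_prod_type]
  rw [e]
  obtain ⟨q, hq, h0⟩ := Polynomial.exists_eq_pow_rootMultiplicity_mul_and_not_dvd
    (Bᴴ * B).charpoly (Bᴴ * B).charpoly_monic.ne_zero 0
  rw [map_zero, sub_zero, Polynomial.X_dvd_iff] at h0
  rw [map_zero, sub_zero] at hq
  have c := (Bᴴ * B).aeval_self_charpoly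
  rw [hq, map_mul, map_pow, Polynomial.aeval_X] at c
  have d := (conjTranspose_mul_self_mul_eq_zero B _).1
    (rey_pow (isHermitian_conjTranspose_mul_self B) _ _ c)
  refine ⟨-(Polynomial.C (q.coeff 0)⁻¹ * q.divX), fun h => ?_⟩
  have f : 1 - Polynomial.aeval (Bᴴ * B) (-(Polynomial.C (q.coeff 0)⁻¹ * q.divX)) * (Bᴴ * B) =
      (q.coeff 0)⁻¹ • Polynomial.aeval (Bᴴ * B) q := by
    conv_rhs => enter [2]; rw [← Polynomial.divX_mul_X_add q]
    simp [Algebra.algebraMap_eq_smul_one, smul_smul, inv_mul_cancel₀ h0, add_comm]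
  rw [f, Matrix.mul_smul]
  refine smul_eq_zero_of_right _ ?_
  ext i j
  simpa [hB, Matrix.mul_apply] using congrFun (congrFun d (h, i)) j

/-- The rational matrices that preserve a subspace. -/
def reyAlg {n : Type} [Fintype n] [DecidableEq n] (U : Submodule Λ (n → Λ)) :
    Subalgebra ℚ (Matrix n n ℚ) where
  carrier := {N | ∀ u ∈ U, N.map (algebraMap ℚ Λ) *ᵥ u ∈ U}
  mul_mem' ha hb u hu := by
    rw [Matrix.map_mul, ← mulVec_mulVec]
    exact ha _ (hb _ hu)
  add_mem' ha hb u hu := by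
    rw [Matrix.map_add _ (map_add _), add_mulVec]
    exact U.add_mem (ha _ hu) (hb _ hu)
  algebraMap_mem' r u hu := by
    have e : (algebraMap ℚ (Matrix n n ℚ) r).map (algebraMap ℚ Λ) *ᵥ u = algebraMap ℚ Λ r • u := by
      funext i
      rw [Matrix.algebraMap_eq_diagonal, diagonal_map (map_zero _), mulVec_diagonal]
      rfl
    rw [e]
    exact U.smul_mem _ hu

theorem rey_proj {n H : Type} [Fintype n] [DecidableEq n] [Fintype H] (M : H → Matrix n n ℚ)
    {U : Submodule Λ (n → Λ)} (h1 : ∀ h, ∀ u ∈ U, (M h).map (algebraMap ℚ Λ) *ᵥ u ∈ U)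
    (h2 : ∀ h, ∀ u ∈ U, ((M h).map (algebraMap ℚ Λ))ᵀ *ᵥ u ∈ U) {x : n → Λ}
    (hx : ∀ h, x - (M h).map (algebraMap ℚ Λ) *ᵥ x ∈ U) :
    ∃ y, x - y ∈ U ∧ ∀ h, (M h).map (algebraMap ℚ Λ) *ᵥ y = y := by
  obtain ⟨p, hp⟩ := rey_poly fun h => 1 - M h
  have s : ∀ (N : Matrix n n ℚ) (v : n → Λ),
      (1 - N).map (algebraMap ℚ Λ) *ᵥ v = v - N.map (algebraMap ℚ Λ) *ᵥ v := fun N v => by
    rw [Matrix.map_sub _ (map_sub _), sub_mulVec, Matrix.map_one _ (map_zero _) (map_one _),
      one_mulVec]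
  have a : ∀ h, (1 - M h)ᵀ ∈ reyAlg U := fun h => by
    rw [transpose_sub, transpose_one]
    exact sub_mem (one_mem _) (h2 h)
  have b : ∑ h, (1 - M h)ᵀ * (1 - M h) ∈ reyAlg U :=
    sum_mem fun h _ => mul_mem (a h) (sub_mem (one_mem _) (h1 h))
  have c : (∑ h, (1 - M h)ᵀ * (1 - M h)).map (algebraMap ℚ Λ) *ᵥ x ∈ U := by
    rw [← RingHom.mapMatrix_apply, map_sum, sum_mulVec]
    refine sum_mem fun h _ => ?_
    rw [RingHom.mapMatrix_apply, Matrix.map_mul, ← mulVec_mulVec, s]
    exact a h _ (hx h)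
  generalize ∑ h, (1 - M h)ᵀ * (1 - M h) = Q at hp b c
  refine ⟨(1 - Polynomial.aeval Q p * Q).map (algebraMap ℚ Λ) *ᵥ x, ?_, fun h => ?_⟩
  · rw [s, sub_sub_cancel, Matrix.map_mul, ← mulVec_mulVec]
    exact Algebra.adjoin_le (Set.singleton_subset_iff.2 b)
      (Polynomial.aeval_mem_adjoin_singleton ℚ Q) _ c
  · refine (sub_eq_zero.1 ?_).symm
    rw [← s, mulVec_mulVec, ← Matrix.map_mul, hp, Matrix.map_zero _ (map_zero _), zero_mulVec]

variable (Λ) in
/-- The generators: transvections and diagonal matrices in one block. -/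
def gen (i : C) (x y : ι i) (b : Bool) : Blk ι Λ :=
  Pi.mulSingle i (if x = y then 1 else if b then transvection x y 1 else
    diagonal (Function.update (Function.update 1 x 2) y 2⁻¹))

theorem gen_det (i : C) (x y : ι i) (b : Bool) (j) : (gen Λ i x y b j).det = 1 := by
  by_cases e : j = i
  · subst e
    rw [gen, Pi.mulSingle_eq_same]
    split_ifs with h1 h2
    · exact det_one
    · exact det_transvection_of_ne x y h1 1
    · rw [det_diagonal, Finset.prod_update_of_mem (Finset.mem_univ _),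
        Finset.prod_update_of_mem (by simpa using h1)]
      simp
  · rw [gen, Pi.mulSingle_eq_of_ne e, det_one]

theorem gen_map (i : C) (x y : ι i) (b : Bool) :
    gen Λ i x y b = fun j => (gen ℚ i x y b j).map (algebraMap ℚ Λ) := by
  funext j
  by_cases e : j = i
  · subst e
    rw [gen, gen, Pi.mulSingle_eq_same, Pi.mulSingle_eq_same]
    split_ifs with h1 h2
    · exact (Matrix.map_one _ (map_zero _) (map_one _)).symm
    · rw [transvection, transvection, Matrix.map_add _ (map_add _),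
        Matrix.map_one _ (map_zero _) (map_one _), map_single, map_one]
    · rw [diagonal_map (map_zero _)]
      refine congrArg diagonal (funext fun z => ?_)
      simp only [Function.update_apply]
      split_ifs <;> simp
  · rw [gen, gen, Pi.mulSingle_eq_of_ne e, Pi.mulSingle_eq_of_ne e,
      Matrix.map_one _ (map_zero _) (map_one _)]

theorem rey_blk (k : Blk ι Λ) (F : (Σ i, ι i) → Λ) (d : C) :
    (fun J => (blockDiagonal' k *ᵥ F) ⟨d, J⟩) = k d *ᵥ fun J => F ⟨d, J⟩ := by
  funext J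
  rw [mulVec, dotProduct, Fintype.sum_sigma, Finset.sum_eq_single d]
  · simp [mulVec, dotProduct]
  · intro c _ hc
    simp [blockDiagonal'_apply_ne _ _ _ hc.symm]
  · simp

/-- The pairing with the translates of the tensor. -/
def reyL (t : (S → Σ i, ι i) → Λ) (e : ℕ) (g : Blk ι Λ) :
    ((Σ d : Fin e, (Fin (d + 1) × S → Σ i, ι i)) → Λ) →ₗ[Λ] Λ where
  toFun F := ∑ d : Fin e, pw (t ᵥ* tb S g) (d + 1) ⬝ᵥ fun J => F ⟨d, J⟩
  map_add' F G := by
    rw [← Finset.sum_add_distrib]
    exact Finset.sum_congr rfl fun d _ => dotProduct_add _ _ _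
  map_smul' a F := by
    rw [RingHom.id_apply, Finset.smul_sum]
    exact Finset.sum_congr rfl fun d _ => dotProduct_smul a _ _

theorem reyL_apply (t : (S → Σ i, ι i) → Λ) (e : ℕ) (g : Blk ι Λ) (F) :
    reyL t e g F = ∑ d : Fin e, pw (t ᵥ* tb S g) (d + 1) ⬝ᵥ fun J => F ⟨d, J⟩ := rfl

theorem reyL_mul (t : (S → Σ i, ι i) → Λ) (e : ℕ) (g k : Blk ι Λ) (F) :
    reyL t e g ((blockDiagonal' fun d : Fin e => tb (Fin (d + 1) × S) k) *ᵥ F) =
      reyL t e (g * k) F := by
  rw [reyL_apply, reyL_apply]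
  refine Finset.sum_congr rfl fun d _ => ?_
  rw [rey_blk (fun d : Fin e => tb (Fin (d + 1) × S) k), dotProduct_mulVec, tb_mul, ← vecMul_vecMul]
  exact congrArg (· ⬝ᵥ _) (pw_vecMul _ _ _)

theorem Sep.inv {t : (S → Σ i, ι i) → Λ} (h : Sep t) :
    ∃ (d : ℕ) (P : (Fin (d + 1) × S → Σ i, ι i) → Λ), pw t (d + 1) ⬝ᵥ P ≠ 0 ∧
      ∀ i x y b, tb _ (gen Λ i x y b) *ᵥ P = P := by
  obtain ⟨e, P, hP⟩ := h
  have p : ∀ g : Blk ι Λ, (∀ i, (g i).det = 1) → reyL t e g (fun a => P a.1 a.2) = 1 :=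
    fun g hg => (Finset.sum_range fun d => pw (t ᵥ* tb S g) (d + 1) ⬝ᵥ P d).symm.trans (hP g hg)
  have m : ∀ i x y b, (blockDiagonal' fun d : Fin e =>
      tb (Fin (d + 1) × S) (gen (ι := ι) ℚ i x y b)).map (algebraMap ℚ Λ) =
      blockDiagonal' fun d : Fin e => tb (Fin (d + 1) × S) (gen Λ i x y b) := fun i x y b => by
    rw [blockDiagonal'_map _ _ (map_zero _), gen_map (Λ := Λ)]
    exact congrArg blockDiagonal' (funext fun d => (tb_map _ _).symm)
  have k : ∀ {g k : Blk ι Λ}, (∀ i, (g i).det = 1) → (∀ i, (k i).det = 1) →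
      ∀ i, ((g * k) i).det = 1 := fun a b i => by rw [Pi.mul_apply, det_mul, a, b, mul_one]
  obtain ⟨y, h1, h2⟩ := rey_proj (Λ := Λ) (H := (Σ i, ι i × ι i) × Bool)
    (fun h => blockDiagonal' fun d : Fin e =>
      tb (Fin (d + 1) × S) (gen ℚ h.1.1 h.1.2.1 h.1.2.2 h.2))
    (U := ⨅ g : {g : Blk ι Λ // ∀ i, (g i).det = 1}, LinearMap.ker (reyL t e g.1))
    (x := fun a => P a.1 a.2)
    (fun h u hu => by
      simp only [Submodule.mem_iInf, LinearMap.mem_ker] at hu ⊢
      intro g
      rw [m, reyL_mul]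
      exact hu ⟨_, k g.2 (gen_det _ _ _ _)⟩)
    (fun h u hu => by
      simp only [Submodule.mem_iInf, LinearMap.mem_ker] at hu ⊢
      intro g
      rw [m, blockDiagonal'_transpose]
      simp only [← tb_transpose]
      rw [reyL_mul]
      exact hu ⟨_, k g.2 fun i => (det_transpose _).trans (gen_det _ _ _ _ _)⟩)
    (fun h => by
      simp only [Submodule.mem_iInf, LinearMap.mem_ker]
      intro g
      rw [m, map_sub, reyL_mul, p _ g.2, p _ (k g.2 (gen_det _ _ _ _)), sub_self])
  have o : ∀ i, ((1 : Blk ι Λ) i).det = 1 := fun i => det_one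
  have q := LinearMap.mem_ker.1 ((Submodule.mem_iInf _).1 h1 ⟨1, o⟩)
  rw [map_sub, p _ o, sub_eq_zero, reyL_apply, tb_one, vecMul_one] at q
  obtain ⟨d, -, hd⟩ := Finset.exists_ne_zero_of_sum_ne_zero (q.symm.trans_ne one_ne_zero)
  refine ⟨d, _, hd, fun i x z b => ?_⟩
  have r := h2 (⟨i, x, z⟩, b)
  rw [m] at r
  rw [← rey_blk (fun d : Fin e => tb (Fin (d + 1) × S) (gen Λ i x z b)), r]

variable {P : (S → Σ i, ι i) → Λ} {γ : S → C}

theorem rey_col {g : Blk ι Λ} {I J : S → Σ i, ι i} (h : tb S g I J ≠ 0) (s) :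
    (I s).1 = (J s).1 :=
  of_blockDiagonal' (g := g) (P := fun a b => a.1 = b.1) (fun _ _ _ _ => rfl)
    fun e => h (Finset.prod_eq_zero (Finset.mem_univ s) e)

theorem rey_diag (D : ∀ i, ι i → Λ) :
    tb S (fun i => diagonal (D i)) = diagonal fun J => ∏ s, D (J s).1 (J s).2 := by
  rw [tb, blockDiagonal'_diagonal]
  ext I J
  rw [tq_apply]
  by_cases h : I = J
  · subst h
    simp
  · obtain ⟨s, hs⟩ := Function.ne_iff.1 h
    rw [diagonal_apply_ne _ h]
    exact Finset.prod_eq_zero (Finset.mem_univ s) (diagonal_apply_ne _ hs)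

theorem rey_single (i : C) (d : ι i → Λ) : (Pi.mulSingle i (diagonal d) : Blk ι Λ) =
    fun j => diagonal ((Pi.mulSingle i d : ∀ j, ι j → Λ) j) := by
  funext j
  by_cases h : j = i
  · subst h
    simp
  · rw [Pi.mulSingle_eq_of_ne h, Pi.mulSingle_eq_of_ne h]
    exact diagonal_one.symm

theorem cut_inv (γ : S → C) {g : Blk ι Λ} (h : tb S g *ᵥ P = P) :
    (tb S g *ᵥ fun J => if ∀ s, (J s).1 = γ s then P J else 0) =
      fun J => if ∀ s, (J s).1 = γ s then P J else 0 := by
  funext I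
  have e := congrFun h I
  simp only [mulVec, dotProduct] at e ⊢
  split_ifs with k
  · rw [← e]
    refine Finset.sum_congr rfl fun J _ => ?_
    by_cases z : tb S g I J = 0
    · rw [z, zero_mul, zero_mul]
    · rw [if_pos fun s => (rey_col z s).symm.trans (k s)]
  · refine Finset.sum_eq_zero fun J _ => ?_
    by_cases z : tb S g I J = 0
    · rw [z, zero_mul]
    · rw [if_neg fun q => k fun s => (rey_col z s).trans (q s), mul_zero]

/-- The tensor is an eigenvector on both sides. -/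
def Semi (P : (S → Σ i, ι i) → Λ) (g : Blk ι Λ) : Prop :=
  ∃ ε : Λ, ε ≠ 0 ∧ tb S g *ᵥ P = ε • P ∧ P ᵥ* tb S g = ε • P

theorem Semi.mul {g h : Blk ι Λ} (a : Semi P g) (b : Semi P h) : Semi P (g * h) := by
  obtain ⟨ε, a0, a1, a2⟩ := a
  obtain ⟨δ, b0, b1, b2⟩ := b
  refine ⟨ε * δ, mul_ne_zero a0 b0, ?_, ?_⟩
  · rw [tb_mul, ← mulVec_mulVec, b1, mulVec_smul, a1, smul_smul, mul_comm]
  · rw [tb_mul, ← vecMul_vecMul, a2, smul_vecMul, b2, smul_smul]

variable (hγ : ∀ J, P J ≠ 0 → ∀ s, (J s).1 = γ s) (hP : ∀ i x y b, tb S (gen Λ i x y b) *ᵥ P = P)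
include hγ hP

theorem semi_count {J J' : S → Σ i, ι i} (h : P J ≠ 0) (h' : P J' ≠ 0) (a) :
    (Finset.univ.filter fun s => J s = a).card = (Finset.univ.filter fun s => J' s = a).card := by
  have k1 : ∀ J, P J ≠ 0 → ∀ i (x y : ι i), (Finset.univ.filter fun s => J s = ⟨i, x⟩).card =
      (Finset.univ.filter fun s => J s = ⟨i, y⟩).card := fun J h i x y => by
    by_cases q : x = y
    · rw [q]
    have e := congrFun (hP i x y false) J
    rw [gen, if_neg q, if_neg Bool.false_ne_true, rey_single, rey_diag, mulVec_diagonal,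
      mul_eq_right₀ h] at e
    have k : ∀ a : Σ i, ι i, (Pi.mulSingle i (Function.update (Function.update 1 x 2) y 2⁻¹) :
        ∀ j, ι j → Λ) a.1 a.2 = (if a = ⟨i, x⟩ then 2 else 1) * if a = ⟨i, y⟩ then 2⁻¹ else 1 := by
      rintro ⟨j, z⟩
      by_cases hj : j = i
      · subst hj
        by_cases h1 : z = y
        · subst h1
          simp [Ne.symm q]
        · by_cases h2 : z = x
          · subst h2
            simp [q]
          · simp [h1, h2]
      · simp [hj]
    simp only [k] at e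
    rw [Finset.prod_mul_distrib, Finset.prod_ite, Finset.prod_ite, Finset.prod_const_one,
      Finset.prod_const_one, Finset.prod_const, Finset.prod_const, mul_one, mul_one, inv_pow,
      mul_inv_eq_one₀ (by simp)] at e
    exact Nat.pow_right_injective le_rfl (show 2 ^ _ = 2 ^ _ by exact_mod_cast e)
  have k2 : ∀ J, P J ≠ 0 → ∀ i (x : ι i), Fintype.card (ι i) *
      (Finset.univ.filter fun s => J s = ⟨i, x⟩).card =
        (Finset.univ.filter fun s => γ s = i).card := fun J h i x => by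
    rw [← smul_eq_mul, ← Finset.card_univ, ← Finset.sum_const,
      Finset.sum_congr rfl fun y _ => k1 J h i x y]
    simp only [Finset.card_filter, ← hγ J h]
    rw [Finset.sum_comm]
    refine Finset.sum_congr rfl fun s _ => ?_
    rcases J s with ⟨j, z⟩
    by_cases hj : j = i
    · subst hj
      simp
    · simp [hj]
  obtain ⟨i, x⟩ := a
  exact Nat.eq_of_mul_eq_mul_left (Fintype.card_pos_iff.2 ⟨x⟩)
    ((k2 J h i x).trans (k2 J' h' i x).symm)

theorem semi_diag {D : ∀ i, ι i → Λ} (hD : ∀ i x, D i x ≠ 0) :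
    Semi P fun i => diagonal (D i) := by
  by_cases z : P = 0
  · exact ⟨1, one_ne_zero, by simp [z], by simp [z]⟩
  obtain ⟨K, hK⟩ := Function.ne_iff.1 z
  have k : ∀ J, (∏ s, D (J s).1 (J s).2) * P J = (∏ s, D (K s).1 (K s).2) * P J := fun J => by
    by_cases h : P J = 0
    · rw [h, mul_zero, mul_zero]
    rw [← Fintype.prod_fiberwise' J fun a => D a.1 a.2,
      ← Fintype.prod_fiberwise' K fun a => D a.1 a.2]
    simp only [Finset.prod_const, Finset.card_univ, Fintype.card_subtype,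
      semi_count hγ hP h hK]
  refine ⟨∏ s, D (K s).1 (K s).2, Finset.prod_ne_zero_iff.2 fun s _ => hD _ _, funext fun J => ?_,
    funext fun J => ?_⟩
  · rw [rey_diag, mulVec_diagonal, k, Pi.smul_apply, smul_eq_mul]
  · rw [rey_diag, vecMul_diagonal, mul_comm, k, Pi.smul_apply, smul_eq_mul]

theorem rey_sd (i : C) {d : ι i → Λ} (hd : ∀ x, d x ≠ 0) :
    Semi P (Pi.mulSingle i (diagonal d)) := by
  rw [rey_single]
  refine semi_diag hγ hP fun j x => ?_
  by_cases hj : j = i
  · subst hj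
    simpa using hd x
  · simp [hj]

theorem semi_trans (i : C) {x y : ι i} (h : x ≠ y) (a : Λ) :
    Semi P (Pi.mulSingle i (transvection x y a)) := by
  by_cases z : a = 0
  · rw [z, transvection_zero, Pi.mulSingle_one]
    exact ⟨1, one_ne_zero, by simp [tb_one], by simp [tb_one]⟩
  have k0 : ∀ {x y : ι i}, x ≠ y → tb S (Pi.mulSingle i (transvection x y 1)) *ᵥ P = P :=
    fun {x y} h => by simpa only [gen, if_neg h, if_true] using hP i x y true
  have k1 : Semi P (Pi.mulSingle i (transvection x y 1)) := by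
    refine ⟨1, one_ne_zero, by rw [k0 h, one_smul], ?_⟩
    rw [← mulVec_transpose, ← tb_transpose, one_smul]
    refine Eq.trans (congrArg (fun g => tb S g *ᵥ P) (funext fun j => ?_)) (k0 h.symm)
    by_cases hj : j = i
    · subst hj
      simp [transvection]
    · simp [hj]
  have k2 : transvection x y a = diagonal (Function.update 1 x a) * transvection x y 1 *
      diagonal (Function.update 1 x a⁻¹) := by
    ext u v
    rw [mul_diagonal, diagonal_mul]
    by_cases hu : u = x <;> by_cases hv : v = x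
    · simp [transvection, hu, hv, z, h.symm]
    · simp [transvection, single_apply, hu, hv, Ne.symm hv]
    · simp [transvection, hu, hv, h.symm]
    · simp [transvection, hu, hv, Ne.symm hu]
  rw [k2, Pi.mulSingle_mul, Pi.mulSingle_mul]
  exact ((rey_sd hγ hP i fun u => by by_cases hu : u = x <;> simp [hu, z]).mul k1).mul
    (rey_sd hγ hP i fun u => by by_cases hu : u = x <;> simp [hu, z])

theorem semi {g : Blk ι Λ} (hg : ∀ i, (g i).det ≠ 0) : Semi P g := by
  have k : ∀ i, Semi P (Pi.mulSingle i (g i)) := fun i =>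
    diagonal_transvection_induction_of_det_ne_zero (fun M => Semi P (Pi.mulSingle i M)) _ (hg i)
      (fun D h => rey_sd hγ hP i fun x e =>
        h (by rw [det_diagonal]; exact Finset.prod_eq_zero (Finset.mem_univ x) e))
      (fun t => semi_trans hγ hP i t.hij t.c)
      fun A B _ _ a b => by rw [Pi.mulSingle_mul]; exact a.mul b
  have k2 : ∀ F : Finset C, Semi P fun i => if i ∈ F then g i else 1 := fun F => by
    induction F using Finset.induction_on with
    | empty =>
      have : (fun i => if i ∈ (∅ : Finset C) then g i else 1) = 1 := by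
        funext i
        simp
      rw [this]
      exact ⟨1, one_ne_zero, by simp [tb_one], by simp [tb_one]⟩
    | insert j F hj ih =>
      have : (fun i => if i ∈ insert j F then g i else 1) =
          Pi.mulSingle j (g j) * fun i => if i ∈ F then g i else 1 := by
        funext i
        by_cases hi : i = j
        · subst hi
          simp [hj]
        · simp [hi]
      rw [this]
      exact (k j).mul ih
  simpa using k2 Finset.univ

end

end Pool.Agent.Lib.MP_035963_ag.HN
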